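import Mathlib

/-!
Measures on the plane: directional, radial and planar equidistribution.
-/

namespace Pool.Agent.MP_16ecd2_an.H44

open Set Filter Topology Real MeasureTheory Metric

/-- Mass of the disc of radius `R`. -/
noncomputable def N (μ : Measure ℂ) (R : ℝ) : ℝ := μ.real (closedBall 0 R)

/-- Functions of the direction. -/
def Hom (h : ℂ → ℝ) : Prop :=
  ContinuousOn h {0}ᶜ ∧ ∀ t : ℝ, 0 < t → ∀ z, h (t • z) = h z

/-- Integral over the disc of radius `R`. -/
noncomputable def J (μ : Measure ℂ) (h : ℂ → ℝ) (R : ℝ) : ℝ := ∫ z in closedBall 0 R, h z ∂μ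

/-- Directions equidistribute. -/
def Dir (μ : Measure ℂ) : Prop :=
  ∀ h, Hom h → Tendsto (fun R => J μ h R / N μ R) atTop (𝓝 (π⁻¹ * J volume h 1))

/-- Regular variation of index two. -/
def Reg (μ : Measure ℂ) : Prop :=
  ∀ a : ℝ, 0 < a → Tendsto (fun R => N μ (a * R) / N μ R) atTop (𝓝 (a ^ 2))

/-- Planar equidistribution. -/
def Pl (μ : Measure ℂ) (n : ℝ → ℝ) : Prop :=
  ∀ f : ℂ → ℝ, Continuous f → HasCompactSupport f →
    Tendsto (fun R : ℝ => (∫ z, f (R⁻¹ • z) ∂μ) / n R) atTop (𝓝 (π⁻¹ * ∫ z, f z))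

theorem approx {x : ℝ → ℝ} {L : ℝ}
    (H : ∀ ε > 0, ∃ (u e : ℝ → ℝ) (c d : ℝ), Tendsto u atTop (𝓝 c) ∧ Tendsto e atTop (𝓝 d) ∧
      d ≤ ε ∧ |c - L| ≤ ε ∧ ∀ᶠ R in atTop, |x R - u R| ≤ e R) : Tendsto x atTop (𝓝 L) := by
  rw [Metric.tendsto_nhds]
  intro ε hε
  obtain ⟨u, e, c, d, h1, h2, h3, h4, h5⟩ := H (ε / 4) (by positivity)
  filter_upwards [h5, Metric.tendsto_nhds.1 h1 (ε / 4) (by positivity),
    Metric.tendsto_nhds.1 h2 (ε / 4) (by positivity)] with R a1 a2 a3
  rw [Real.dist_eq] at *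
  rw [abs_lt] at a2 a3 ⊢
  rw [abs_le] at a1 h4
  constructor <;> linarith [a1.1, a1.2, h4.1, h4.2, a2.1, a2.2, a3.1, a3.2]

theorem Hom.meas {h : ℂ → ℝ} (H : Hom h) : Measurable h :=
  measurable_of_continuousOn_compl_singleton 0 H.1

theorem Hom.bdd {h : ℂ → ℝ} (H : Hom h) : ∃ M, 0 ≤ M ∧ ∀ z, |h z| ≤ M := by
  obtain ⟨M, hM⟩ := (isCompact_sphere (0 : ℂ) 1).exists_bound_of_continuousOn
    (H.1.mono fun z hz h0 => by
      rw [mem_singleton_iff.1 h0] at hz
      simp at hz)
  refine ⟨max M |h 0|, (abs_nonneg _).trans (le_max_right _ _), fun z => ?_⟩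
  rcases eq_or_ne z 0 with rfl | hz
  · exact le_max_right _ _
  · have hp : 0 < ‖z‖ := norm_pos_iff.2 hz
    rw [← H.2 ‖z‖⁻¹ (inv_pos.2 hp)]
    refine (hM _ ?_).trans (le_max_left _ _)
    simp [hp.ne']

theorem Hom.int {h : ℂ → ℝ} (H : Hom h) (μ : Measure ℂ) [IsFiniteMeasureOnCompacts μ] (R : ℝ) :
    IntegrableOn h (closedBall 0 R) μ := by
  obtain ⟨M, -, hM⟩ := H.bdd
  exact Measure.integrableOn_of_bounded (isCompact_closedBall _ _).measure_lt_top.ne
    H.meas.aestronglyMeasurable (M := M) (.of_forall hM)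

theorem hom_one : Hom fun _ => 1 := ⟨continuousOn_const, fun _ _ _ => rfl⟩

theorem J_one (μ : Measure ℂ) (R : ℝ) : J μ (fun _ => 1) R = N μ R := by simp [J, N]

theorem N_vol {R : ℝ} (hR : 0 ≤ R) : N volume R = π * R ^ 2 := by
  simp [N, Measure.real, Complex.volume_closedBall, hR, mul_comm]

theorem N_nonneg (μ : Measure ℂ) (R : ℝ) : 0 ≤ N μ R := measureReal_nonneg

theorem N_mono (μ : Measure ℂ) [IsFiniteMeasureOnCompacts μ] : Monotone (N μ) := fun _ _ h =>
  measureReal_mono (closedBall_subset_closedBall h) (isCompact_closedBall _ _).measure_lt_top.ne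

theorem N_pos (μ : Measure ℂ) [IsFiniteMeasureOnCompacts μ] (h : μ ≠ 0) :
    ∀ᶠ R in atTop, 0 < N μ R := by
  by_contra hc
  refine h (Measure.measure_univ_eq_zero.1 ?_)
  rw [← iUnion_closedBall_nat (0 : ℂ)]
  refine measure_iUnion_null fun n => ?_
  by_contra hn
  refine hc ((eventually_ge_atTop (n : ℝ)).mono fun R hR => lt_of_lt_of_le ?_ (N_mono μ hR))
  exact ENNReal.toReal_pos hn (isCompact_closedBall _ _).measure_lt_top.ne

theorem J_scale (μ : Measure ℂ) {h : ℂ → ℝ} (H : Hom h) (a : ℝ) {R : ℝ} (hR : 0 < R) :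
    J μ h (a * R) = ∫ z, (closedBall 0 a).indicator h (R⁻¹ • z) ∂μ := by
  rw [J, ← integral_indicator measurableSet_closedBall]
  refine integral_congr_ae (.of_forall fun z => ?_)
  have e : z ∈ closedBall (0 : ℂ) (a * R) ↔ R⁻¹ • z ∈ closedBall (0 : ℂ) a := by
    rw [mem_closedBall_zero_iff, mem_closedBall_zero_iff, norm_smul, norm_inv,
      Real.norm_of_nonneg hR.le, inv_mul_le_iff₀ hR, mul_comm]
  by_cases hz : z ∈ closedBall (0 : ℂ) (a * R)
  · simp only [indicator_of_mem hz, indicator_of_mem (e.1 hz), H.2 _ (inv_pos.2 hR)]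
  · simp only [indicator_of_notMem hz, indicator_of_notMem (mt e.2 hz)]

theorem J_vol {h : ℂ → ℝ} (H : Hom h) {a : ℝ} (ha : 0 < a) :
    J volume h a = a ^ 2 * J volume h 1 := by
  have := J_scale volume H 1 ha
  rw [one_mul, Measure.integral_comp_inv_smul_of_nonneg _ _ ha.le,
    integral_indicator measurableSet_closedBall] at this
  simpa [J] using this

/-- Clamp to the unit interval. -/
noncomputable def cl (t : ℝ) : ℝ := max 0 (min 1 t)

theorem cl_cont : Continuous cl := continuous_const.max (continuous_const.min continuous_id)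

theorem cl_zero {t : ℝ} (h : t ≤ 0) : cl t = 0 := max_eq_left ((min_le_right _ _).trans h)

theorem cl_one {t : ℝ} (h : 1 ≤ t) : cl t = 1 := by simp [cl, h]

theorem cl_nn (t : ℝ) : 0 ≤ cl t := le_max_left _ _

theorem cl_le (t : ℝ) : cl t ≤ 1 := max_le zero_le_one (min_le_left _ _)

theorem supp_of {f : ℂ → ℝ} {T : ℝ} (h : ∀ z, T < ‖z‖ → f z = 0) : HasCompactSupport f :=
  HasCompactSupport.intro (isCompact_closedBall 0 T) fun z hz => h z (by simpa using hz)

theorem int_smul (μ : Measure ℂ) [IsFiniteMeasureOnCompacts μ] {f : ℂ → ℝ} (h1 : Continuous f)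
    (h2 : HasCompactSupport f) {R : ℝ} (hR : 0 < R) : Integrable (fun z => f (R⁻¹ • z)) μ :=
  (h1.comp (continuous_const_smul _)).integrable_of_hasCompactSupport
    (h2.comp_smul (inv_pos.2 hR).ne')

theorem exists_sandwich {h : ℂ → ℝ} (H : Hom h) (a : ℝ) {ε : ℝ} (hε : 0 < ε) :
    ∃ f η : ℂ → ℝ, Continuous f ∧ HasCompactSupport f ∧ Continuous η ∧ HasCompactSupport η ∧
      (∀ z, |(closedBall 0 a).indicator h z - f z| ≤ η z) ∧ ∫ z, η z ≤ ε := by
  obtain ⟨M, hM0, hM⟩ := H.bdd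
  set c : ℕ → ℂ → ℝ := fun n z => cl ((n + 1) * (a - ‖z‖)) with hc
  set d : ℕ → ℂ → ℝ := fun n z => cl ((n + 1) * ‖z‖ - 1) with hd
  set C : ℕ → ℂ → ℝ := fun n z => cl ((n + 1) * (a - ‖z‖) + 1) with hC
  have cc : ∀ n, Continuous (c n) := fun n => cl_cont.comp (by fun_prop)
  have cd : ∀ n, Continuous (d n) := fun n => cl_cont.comp (by fun_prop)
  have cC : ∀ n, Continuous (C n) := fun n => cl_cont.comp (by fun_prop)
  have p : ∀ n : ℕ, (0 : ℝ) ≤ n := fun n => n.cast_nonneg
  have c0 : ∀ n z, a < ‖z‖ → c n z = 0 := fun n z hz => cl_zero (by nlinarith [p n])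
  have C0 : ∀ n z, a + 1 < ‖z‖ → C n z = 0 := fun n z hz => cl_zero (by nlinarith [p n])
  have cd1 : ∀ n z, 0 ≤ c n z * d n z ∧ c n z * d n z ≤ 1 := fun n z =>
    ⟨mul_nonneg (cl_nn _) (cl_nn _), mul_le_one₀ (cl_le _) (cl_nn _) (cl_le _)⟩
  have lim : Tendsto (fun n => ∫ z, M * (C n z - c n z * d n z)) atTop
      (𝓝 (∫ _ : ℂ, (0 : ℝ))) := by
    refine tendsto_integral_of_dominated_convergence
      ((closedBall (0 : ℂ) (a + 1)).indicator fun _ => M)
      (fun n => Continuous.aestronglyMeasurable (by fun_prop)) ?_ (fun n => .of_forall fun z => ?_)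
      ?_
    · rw [integrable_indicator_iff measurableSet_closedBall]
      exact integrableOn_const (isCompact_closedBall _ _).measure_lt_top.ne
    · by_cases hz : z ∈ closedBall (0 : ℂ) (a + 1)
      · rw [indicator_of_mem hz, norm_mul, Real.norm_of_nonneg hM0]
        refine mul_le_of_le_one_right hM0 (abs_le.2 ⟨?_, ?_⟩)
        · linarith [(cd1 n z).2, show 0 ≤ C n z from cl_nn _]
        · linarith [(cd1 n z).1, show C n z ≤ 1 from cl_le _]
      · have hz' : a + 1 < ‖z‖ := by simpa using hz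
        simp [indicator_of_notMem hz, C0 n z hz', c0 n z (by linarith)]
    · filter_upwards [compl_mem_ae_iff.2 (Measure.addHaar_sphere volume (0 : ℂ) a),
        compl_mem_ae_iff.2 (measure_singleton (0 : ℂ))] with z h1 h2
      have h3 : ‖z‖ ≠ a := by simpa using h1
      have h4 : 0 < ‖z‖ := norm_pos_iff.2 h2
      have t : ∀ {b : ℝ}, 0 < b → ∀ᶠ n : ℕ in atTop, 2 ≤ ((n : ℝ) + 1) * b := fun hb =>
        ((tendsto_atTop_add_const_right _ 1 tendsto_natCast_atTop_atTop).atTop_mul_const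
          hb).eventually_ge_atTop 2
      refine tendsto_const_nhds.congr' ?_
      rcases h3.lt_or_gt with h5 | h5
      · filter_upwards [t h4, t (sub_pos.2 h5)] with n n1 n2
        rw [show C n z = 1 from cl_one (by linarith), show c n z = 1 from cl_one (by linarith),
          show d n z = 1 from cl_one (by linarith)]
        simp
      · filter_upwards [t (sub_pos.2 h5)] with n n1
        rw [show C n z = 0 from cl_zero (by linarith), c0 n z h5]
        simp
  obtain ⟨n, hn⟩ := (lim.eventually (gt_mem_nhds (by simpa using hε : ∫ _ : ℂ, (0 : ℝ) < ε))).exists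
  refine ⟨fun z => h z * d n z * c n z, fun z => M * (C n z - c n z * d n z),
    Continuous.mul ?_ (cc n), supp_of (T := a) fun z hz => by simp [c0 n z hz], by fun_prop,
    supp_of (T := a + 1) fun z hz => by simp [C0 n z hz, c0 n z (by linarith)], fun z => ?_, hn.le⟩
  · refine continuous_iff_continuousAt.2 fun z => ?_
    rcases eq_or_ne z 0 with rfl | hz
    · refine (continuousAt_const (y := (0 : ℝ))).congr ?_
      have : ∀ᶠ w : ℂ in 𝓝 0, ((n : ℝ) + 1) * ‖w‖ - 1 < 0 :=
        ContinuousAt.eventually_lt (by fun_prop) continuousAt_const (by simp)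
      filter_upwards [this] with w hw
      rw [show d n w = 0 from cl_zero hw.le, mul_zero]
    · exact (H.1.continuousAt (isOpen_compl_singleton.mem_nhds hz)).mul (cd n).continuousAt
  · beta_reduce
    by_cases hz : z ∈ closedBall (0 : ℂ) a
    · have hz' : ‖z‖ ≤ a := by simpa using hz
      rw [indicator_of_mem hz, show C n z = 1 from cl_one (by nlinarith [p n]),
        show h z - h z * d n z * c n z = h z * (1 - c n z * d n z) by ring, abs_mul,
        abs_of_nonneg (sub_nonneg.2 (cd1 n z).2)]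
      exact mul_le_mul_of_nonneg_right (hM z) (sub_nonneg.2 (cd1 n z).2)
    · have hz' : a < ‖z‖ := by simpa using hz
      simpa [indicator_of_notMem hz, c0 n z hz'] using mul_nonneg hM0 (cl_nn _)

/-- Planar equidistribution gives the mass of sectors. -/
theorem Pl.sector {μ : Measure ℂ} [IsFiniteMeasureOnCompacts μ] {n : ℝ → ℝ} (P : Pl μ n)
    (hn : ∀ R, 0 ≤ n R) {h : ℂ → ℝ} (H : Hom h) (a : ℝ) :
    Tendsto (fun R => J μ h (a * R) / n R) atTop (𝓝 (π⁻¹ * J volume h a)) := by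
  refine approx fun ε hε => ?_
  obtain ⟨f, η, f1, f2, e1, e2, hs, hi⟩ := exists_sandwich H a hε
  have key : ∀ (ν : Measure ℂ) [IsFiniteMeasureOnCompacts ν] (R : ℝ), 0 < R →
      |J ν h (a * R) - ∫ z, f (R⁻¹ • z) ∂ν| ≤ ∫ z, η (R⁻¹ • z) ∂ν := by
    intro ν _ R hR
    have i1 := int_smul ν f1 f2 hR
    have i2 := int_smul ν e1 e2 hR
    have i3 : Integrable (fun z => (closedBall 0 a).indicator h (R⁻¹ • z)) ν := by
      refine (i1.abs.add i2).mono' (((H.meas.indicator measurableSet_closedBall).comp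
        (measurable_const_smul _)).aestronglyMeasurable) (.of_forall fun z => ?_)
      have := abs_sub_abs_le_abs_sub ((closedBall 0 a).indicator h (R⁻¹ • z)) (f (R⁻¹ • z))
      have := hs (R⁻¹ • z)
      simp only [Real.norm_eq_abs, Pi.add_apply]
      linarith
    rw [J_scale ν H a hR, ← integral_sub i3 i1]
    rw [← Real.norm_eq_abs]
    exact norm_integral_le_of_norm_le i2 (.of_forall fun z => hs _)
  have hp : π⁻¹ ≤ 1 := inv_le_one_of_one_le₀ (by linarith [pi_gt_three])
  have hp0 : 0 ≤ π⁻¹ := by positivity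
  refine ⟨_, _, _, _, P f f1 f2, P η e1 e2, by nlinarith, ?_, ?_⟩
  · have := key volume 1 one_pos
    simp only [mul_one, inv_one, one_smul] at this
    rw [← mul_sub, abs_mul, abs_of_nonneg hp0, abs_sub_comm]
    nlinarith [abs_nonneg (J volume h a - ∫ z, f z)]
  · filter_upwards [eventually_gt_atTop 0] with R hR
    rw [← sub_div, abs_div, abs_of_nonneg (hn R)]
    exact div_le_div_of_nonneg_right (key μ R hR) (hn R)

end Pool.Agent.MP_16ecd2_an.H44
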