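import Pool.Agent.MP_16ecd2_an.H44.AbsA

/-!
Directional equidistribution and regular variation give planar equidistribution.
-/

namespace Pool.Agent.MP_16ecd2_an.H44

open Set Filter Topology Real MeasureTheory Metric

theorem J_zero {ν : Measure ℂ} (h0 : ν {0} = 0) (F : ℂ → ℝ) : J ν F 0 = 0 := by
  rw [J, closedBall_zero, setIntegral_measure_zero _ h0]

theorem N_zero {ν : Measure ℂ} (h0 : ν {0} = 0) : N ν 0 = 0 := by
  rw [← J_one, J_zero h0]

theorem J_diff (ν : Measure ℂ) {F : ℂ → ℝ} {b b' : ℝ} (hb : b ≤ b')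
    (iF : IntegrableOn F (closedBall 0 b') ν) :
    J ν F b' - J ν F b = ∫ z in closedBall 0 b' \ closedBall 0 b, F z ∂ν :=
  (setIntegral_sdiff measurableSet_closedBall iF (closedBall_subset_closedBall hb)).symm

theorem ann (ν : Measure ℂ) [IsFiniteMeasureOnCompacts ν] {F h : ℂ → ℝ} {b b' ε : ℝ} (hb : b ≤ b')
    (iF : IntegrableOn F (closedBall 0 b') ν) (ih : IntegrableOn h (closedBall 0 b') ν)
    (H : ∀ z, b < ‖z‖ → ‖z‖ ≤ b' → |F z - h z| ≤ ε) :
    |(J ν F b' - J ν F b) - (J ν h b' - J ν h b)| ≤ ε * (N ν b' - N ν b) := by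
  rw [← J_one, ← J_one, J_diff ν hb iF, J_diff ν hb ih, J_diff ν hb (hom_one.int ν _),
    ← integral_sub (iF.mono_set sdiff_subset) (ih.mono_set sdiff_subset), ← Real.norm_eq_abs,
    setIntegral_const, smul_eq_mul, mul_one]
  refine norm_setIntegral_le_of_norm_le_const
    ((measure_mono sdiff_subset).trans_lt (isCompact_closedBall _ _).measure_lt_top) fun z hz => ?_
  exact H z (by simpa using hz.2) (by simpa using hz.1)

theorem hom_ray {f : ℂ → ℝ} (hf : Continuous f) (s : ℝ) : Hom fun z => f ((s * ‖z‖⁻¹) • z) := by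
  refine ⟨hf.comp_continuousOn (ContinuousOn.smul (continuousOn_const.mul
    (continuous_norm.continuousOn.inv₀ fun z hz => norm_ne_zero_iff.2 hz)) continuousOn_id),
    fun t ht z => ?_⟩
  have : s * ‖t • z‖⁻¹ * t = s * ‖z‖⁻¹ := by
    rw [norm_smul, Real.norm_of_nonneg ht.le, mul_inv]
    field_simp
  simp only [smul_smul, this]

theorem steps (ν : Measure ℂ) [IsFiniteMeasureOnCompacts ν] (h0 : ν {0} = 0) {f : ℂ → ℝ}
    (hf : Continuous f) {ε s R : ℝ} (hs : 0 < s) (hR : 0 < R)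
    (hu : ∀ z w, dist z w ≤ s → dist (f z) (f w) ≤ ε) (k : ℕ) :
    |J ν (fun z => f (R⁻¹ • z)) (k * s * R) - ∑ j ∈ Finset.range k,
      (J ν (fun z => f ((j * s * ‖z‖⁻¹) • z)) ((j + 1) * s * R) -
        J ν (fun z => f ((j * s * ‖z‖⁻¹) • z)) (j * s * R))| ≤ ε * N ν (k * s * R) := by
  induction k with
  | zero => simp [J_zero h0, N_zero h0]
  | succ k ih =>
    have hk : (0 : ℝ) ≤ k := k.cast_nonneg
    have := ann ν (F := fun z => f (R⁻¹ • z)) (h := fun z => f ((k * s * ‖z‖⁻¹) • z)) (ε := ε)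
      (b := k * s * R) (b' := (k + 1) * s * R) (by gcongr; linarith)
      ((hf.comp (continuous_const_smul _)).continuousOn.integrableOn_compact
        (isCompact_closedBall _ _)) ((hom_ray hf _).int ν _) fun z h1 h2 => by
        have hz : 0 < ‖z‖ := lt_of_le_of_lt (by positivity) h1
        refine hu _ _ ?_
        rw [dist_eq_norm, ← sub_smul, norm_smul, Real.norm_eq_abs, ← abs_of_pos hz, ← abs_mul,
          abs_of_pos hz, sub_mul, inv_mul_cancel_right₀ hz.ne', abs_le]
        have a1 : k * s ≤ R⁻¹ * ‖z‖ := by rw [le_inv_mul_iff₀ hR]; linarith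
        have a2 : R⁻¹ * ‖z‖ ≤ (k + 1) * s := by rw [inv_mul_le_iff₀ hR]; linarith
        constructor <;> linarith
    rw [Finset.sum_range_succ]
    push_cast
    rw [abs_le] at *
    constructor <;> linarith [this.1, this.2, ih.1, ih.2]

theorem sector_of_dir {μ : Measure ℂ} [IsFiniteMeasureOnCompacts μ] (h0 : μ {0} = 0) (hμ : μ ≠ 0)
    (D : Dir μ) (G : Reg μ) {h : ℂ → ℝ} (H : Hom h) {a : ℝ} (ha : 0 ≤ a) :
    Tendsto (fun R => J μ h (a * R) / N μ R) atTop (𝓝 (π⁻¹ * J volume h a)) := by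
  rcases ha.eq_or_lt with rfl | ha
  · simp [J_zero h0, J_zero (measure_singleton _)]
  · have t : Tendsto (fun R : ℝ => a * R) atTop atTop := tendsto_id.const_mul_atTop ha
    have := ((D h H).comp t).mul (G a ha)
    rw [J_vol H ha, mul_left_comm, mul_comm]
    refine this.congr' ?_
    filter_upwards [t.eventually (N_pos μ hμ)] with R hR
    simp only [Function.comp]
    field_simp

theorem pl_of_dir {μ : Measure ℂ} [IsFiniteMeasureOnCompacts μ] (h0 : μ {0} = 0) (hμ : μ ≠ 0)
    (D : Dir μ) (G : Reg μ) : Pl μ (N μ) := by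
  intro f f1 f2
  obtain ⟨T, hT, hf⟩ : ∃ T : ℝ, 0 < T ∧ ∀ z, T < ‖z‖ → f z = 0 := by
    obtain ⟨T, hT⟩ := f2.isCompact.isBounded.subset_closedBall 0
    refine ⟨max T 1, by positivity, fun z hz => image_eq_zero_of_notMem_tsupport fun h => ?_⟩
    have : ‖z‖ ≤ T := by simpa using hT h
    linarith [le_max_left T 1]
  refine approx fun ε hε => ?_
  obtain ⟨δ, hδ, hu⟩ := Metric.uniformContinuous_iff_le.1
    (f2.uniformContinuous_of_continuous f1) (ε / T ^ 2) (by positivity)
  obtain ⟨m, hm⟩ := exists_nat_gt (T / δ)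
  have hm0 : (0 : ℝ) < m := lt_trans (by positivity) hm
  have hs : 0 < T / m := by positivity
  have hsδ : T / m ≤ δ := by
    rw [div_lt_iff₀ hδ] at hm
    rw [div_le_iff₀ hm0]
    linarith
  have key : ∀ (ν : Measure ℂ) [IsFiniteMeasureOnCompacts ν], ν {0} = 0 → ∀ R : ℝ, 0 < R →
      |∫ z, f (R⁻¹ • z) ∂ν - ∑ j ∈ Finset.range m,
      (J ν (fun z => f ((j * (T / m) * ‖z‖⁻¹) • z)) ((j + 1) * (T / m) * R) -
        J ν (fun z => f ((j * (T / m) * ‖z‖⁻¹) • z)) (j * (T / m) * R))| ≤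
        ε / T ^ 2 * N ν (T * R) := by
    intro ν _ hν R hR
    have := steps ν hν f1 hs hR (fun z w h => hu (h.trans hsδ)) m
    rw [mul_div_cancel₀ _ hm0.ne', J, setIntegral_eq_integral_of_forall_compl_eq_zero] at this
    · exact this
    · intro z hz
      refine hf _ ?_
      rw [norm_smul, norm_inv, Real.norm_of_nonneg hR.le, lt_inv_mul_iff₀ hR, mul_comm]
      simpa using hz
  refine ⟨_, fun R => ε / T ^ 2 * (N μ (T * R) / N μ R), _, _,
    tendsto_finsetSum (Finset.range m) fun j _ =>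
      (sector_of_dir h0 hμ D G (hom_ray f1 (j * (T / m))) (a := (j + 1) * (T / m))
        (by positivity)).sub
      (sector_of_dir h0 hμ D G (hom_ray f1 (j * (T / m))) (a := j * (T / m)) (by positivity)),
    (G T hT).const_mul _, le_of_eq (by field_simp), ?_, ?_⟩
  · have := key volume (measure_singleton _) 1 one_pos
    simp only [mul_one, inv_one, one_smul, N_vol hT.le] at this
    simp only [← mul_sub, ← Finset.mul_sum]
    rw [abs_mul, abs_of_pos (inv_pos.2 pi_pos), abs_sub_comm, inv_mul_le_iff₀ pi_pos]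
    exact this.trans (le_of_eq (by field_simp))
  · filter_upwards [eventually_gt_atTop 0] with R hR
    simp only [← sub_div, ← Finset.sum_div]
    rw [abs_div, abs_of_nonneg (N_nonneg μ R), ← mul_div_assoc]
    exact div_le_div_of_nonneg_right (key μ h0 R hR) (N_nonneg μ R)

end Pool.Agent.MP_16ecd2_an.H44
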