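import Pool.Agent.MP_16ecd2_an.H44.AbsA

/-!
Directional equidistribution for a measure and for one linear image of it gives regular variation.
-/

namespace Pool.Agent.MP_16ecd2_an.H44

open Set Filter Topology Real MeasureTheory Metric

instance fin_map (μ : Measure ℂ) [IsFiniteMeasureOnCompacts μ] (g : ℂ ≃L[ℝ] ℂ) :
    IsFiniteMeasureOnCompacts (μ.map g) :=
  Measure.IsFiniteMeasureOnCompacts.map μ g.toHomeomorph

theorem Hom.comp {h : ℂ → ℝ} (H : Hom h) (g : ℂ ≃L[ℝ] ℂ) : Hom fun z => h (g z) :=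
  ⟨H.1.comp g.continuous.continuousOn fun z hz => by simpa using hz,
    fun t ht z => by simp only [map_smul, H.2 t ht]⟩

theorem J_map (ν : Measure ℂ) (g : ℂ ≃L[ℝ] ℂ) (h : ℂ → ℝ) (S : ℝ) :
    J (ν.map g) (fun z => h (g.symm z)) S = ∫ z in g ⁻¹' closedBall 0 S, h z ∂ν := by
  simpa [J] using g.toHomeomorph.measurableEmbedding.setIntegral_map (μ := ν)
    (fun z => h (g.symm z)) (closedBall 0 S)

theorem int_mono_supp {ν : Measure ℂ} {h : ℂ → ℝ} {A B : Set ℂ} (mA : MeasurableSet A)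
    (mB : MeasurableSet B) (iB : IntegrableOn h B ν) (h0 : ∀ z, 0 ≤ h z)
    (hAB : ∀ z ∈ A, h z ≠ 0 → z ∈ B) : ∫ z in A, h z ∂ν ≤ ∫ z in B, h z ∂ν := by
  rw [← integral_indicator mA, ← integral_indicator mB]
  refine integral_mono_of_nonneg (.of_forall fun z => indicator_nonneg (fun z _ => h0 z) z)
    ((integrable_indicator_iff mB).2 iB) (.of_forall fun z => ?_)
  by_cases hz : z ∈ A
  · rcases eq_or_ne (h z) 0 with e | e
    · simpa [indicator_of_mem hz, e] using indicator_nonneg (fun z _ => h0 z) z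
    · rw [indicator_of_mem hz, indicator_of_mem (hAB z hz e)]
  · rw [indicator_of_notMem hz]
    exact indicator_nonneg (fun z _ => h0 z) z

theorem near {u n : ℝ → ℝ} {A t : ℝ} (h : Tendsto (fun R => u R / n R) atTop (𝓝 A)) (hA : 0 < A)
    (ht : 1 < t) (hn : ∀ᶠ R in atTop, 0 < n R) :
    ∀ᶠ R in atTop, A * n R ≤ t * u R ∧ u R ≤ t * (A * n R) := by
  have ht0 : 0 < t := one_pos.trans ht
  filter_upwards [hn, h.eventually (lt_mem_nhds (div_lt_self hA ht)),
    h.eventually (gt_mem_nhds (lt_mul_of_one_lt_left hA ht))] with R a1 a2 a3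
  rw [div_lt_div_iff₀ ht0 a1] at a2
  rw [div_lt_iff₀ a1] at a3
  constructor <;> linarith

variable {μ : Measure ℂ} [IsFiniteMeasureOnCompacts μ] {g : ℂ ≃L[ℝ] ℂ}

omit [IsFiniteMeasureOnCompacts μ] in
theorem map_ne (hμ : μ ≠ 0) : μ.map g ≠ 0 := fun h =>
  hμ ((Measure.map_eq_zero_iff g.continuous.measurable.aemeasurable).1 h)

theorem two (hμ : μ ≠ 0) (hg : (volume : Measure ℂ).map g = volume) (D : Dir μ)
    (D' : Dir (μ.map g)) {z₀ : ℂ} (hz : z₀ ≠ 0) {lo hi t : ℝ} (h0 : 0 < lo)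
    (h1 : lo < ‖g z₀‖ / ‖z₀‖) (h2 : ‖g z₀‖ / ‖z₀‖ < hi) (ht : 1 < t) :
    ∀ᶠ R in atTop, lo ^ 2 * N μ R ≤ t ^ 2 * N (μ.map g) (hi * R) ∧
      N (μ.map g) (lo * R) ≤ t ^ 2 * hi ^ 2 * N μ R := by
  have h3 : 0 < hi := h0.trans (h1.trans h2)
  set h : ℂ → ℝ := fun z => max 0 (min (‖g z‖ / ‖z‖ - lo) (hi - ‖g z‖ / ‖z‖)) with hh
  have c : ContinuousOn (fun z : ℂ => ‖g z‖ / ‖z‖) {0}ᶜ :=
    (g.continuous.norm.continuousOn).div continuous_norm.continuousOn fun z hz =>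
      norm_ne_zero_iff.2 hz
  have H : Hom h := by
    refine ⟨continuousOn_const.sup ((c.sub continuousOn_const).inf (continuousOn_const.sub c)),
      fun s hs z => ?_⟩
    simp only [hh, map_smul, norm_smul, mul_div_mul_left _ _ (norm_ne_zero_iff.2 hs.ne')]
  have n0 : ∀ z, 0 ≤ h z := fun z => le_max_left _ _
  have su : ∀ z, h z ≠ 0 → lo * ‖z‖ ≤ ‖g z‖ ∧ ‖g z‖ ≤ hi * ‖z‖ := by
    intro z e
    rcases eq_or_ne z 0 with rfl | hz
    · simp
    · have hp : 0 < ‖z‖ := norm_pos_iff.2 hz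
      have := lt_min_iff.1 (lt_of_not_ge fun k => e (max_eq_left k))
      rw [← le_div_iff₀ hp, ← div_le_iff₀ hp]
      constructor <;> linarith [this.1, this.2]
  have H' := H.comp g.symm
  have key : ∀ (ν : Measure ℂ) [IsFiniteMeasureOnCompacts ν] (R : ℝ),
      J ν h R ≤ J (ν.map g) (fun z => h (g.symm z)) (hi * R) ∧
      J (ν.map g) (fun z => h (g.symm z)) (lo * R) ≤ J ν h R := by
    intro ν _ R
    have m : ∀ S, MeasurableSet (g ⁻¹' closedBall 0 S) := fun S =>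
      g.continuous.measurable measurableSet_closedBall
    rw [J_map, J_map]
    refine ⟨int_mono_supp measurableSet_closedBall (m _) ?_ n0 fun z a1 a2 => ?_,
      int_mono_supp (m _) measurableSet_closedBall (H.int ν R) n0 fun z a1 a2 => ?_⟩
    · simpa [Function.comp_def] using g.toHomeomorph.measurableEmbedding.integrableOn_map_iff.1
        (H'.int (ν.map g) (hi * R))
    · simp only [mem_preimage, mem_closedBall_zero_iff] at a1 ⊢
      exact (su z a2).2.trans (by gcongr)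
    · simp only [mem_preimage, mem_closedBall_zero_iff] at a1 ⊢
      exact le_of_mul_le_mul_left ((su z a2).1.trans a1) h0
  have pos : 0 < J volume h 1 := by
    rw [J, setIntegral_pos_iff_support_of_nonneg_ae (.of_forall n0) (H.int _ _)]
    have hp : 0 < ‖z₀‖ := norm_pos_iff.2 hz
    have o := (H.1.isOpen_inter_preimage isOpen_compl_singleton
      (isOpen_compl_singleton (x := (0 : ℝ)))).inter (isOpen_ball (x := (0 : ℂ)) (ε := 1))
    refine (o.measure_pos volume ⟨(2 * ‖z₀‖)⁻¹ • z₀, ⟨?_, ?_⟩, ?_⟩).trans_le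
      (measure_mono fun z a => ⟨a.1.2, ball_subset_closedBall a.2⟩)
    · exact smul_ne_zero (by positivity) hz
    · rw [mem_preimage, H.2 _ (by positivity)]
      exact (lt_max_of_lt_right (lt_min (sub_pos.2 h1) (sub_pos.2 h2))).ne'
    · rw [mem_ball_zero_iff, norm_smul, Real.norm_of_nonneg (by positivity),
        inv_mul_lt_iff₀ (by positivity)]
      linarith
  obtain ⟨v1, v2⟩ := key volume 1
  rw [hg, mul_one, J_vol H' h3] at v1
  rw [hg, mul_one, J_vol H' h0] at v2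
  have pos' : 0 < J volume (fun z => h (g.symm z)) 1 :=
    pos_of_mul_pos_left (pos.trans_le v1 |>.trans_eq (mul_comm _ _)) (sq_nonneg _)
  have pp : 0 < π⁻¹ := inv_pos.2 pi_pos
  have e1 := near (D h H) (mul_pos pp pos) ht (N_pos μ hμ)
  have e2 := near (D' _ H') (mul_pos pp pos') ht (N_pos _ (map_ne hμ))
  filter_upwards [e1, (tendsto_id.const_mul_atTop h3).eventually e2,
    (tendsto_id.const_mul_atTop h0).eventually e2] with R a1 a2 a3
  simp only [id] at a2 a3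
  obtain ⟨k1, k2⟩ := key μ R
  have ht0 : 0 < t := one_pos.trans ht
  have p1 := N_nonneg μ R
  have p2 := N_nonneg (μ.map g) (hi * R)
  constructor
  · refine le_of_mul_le_mul_left ?_ (mul_pos pp pos')
    calc _ = π⁻¹ * (lo ^ 2 * J volume (fun z => h (g.symm z)) 1) * N μ R := by ring
      _ ≤ π⁻¹ * J volume h 1 * N μ R := by gcongr
      _ ≤ t * (t * _) := a1.1.trans (by gcongr; exact k1.trans a2.2)
      _ = _ := by ring
  · refine le_of_mul_le_mul_left ?_ (mul_pos pp pos')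
    calc _ ≤ t * (t * (π⁻¹ * J volume h 1 * N μ R)) := a3.1.trans (by gcongr; exact k2.trans a1.2)
      _ ≤ t * (t * (π⁻¹ * (hi ^ 2 * J volume (fun z => h (g.symm z)) 1) * N μ R)) := by gcongr
      _ = _ := by ring

/-- One-sided growth estimate. -/
def Low (μ : Measure ℂ) (b : ℝ) : Prop :=
  ∀ t : ℝ, 1 < t → ∀ᶠ R in atTop, b ^ 2 * N μ R ≤ t * N μ (t * b * R)

theorem root {t : ℝ} (ht : 1 < t) {n : ℕ} (hn : n ≠ 0) : ∃ s : ℝ, 1 < s ∧ s ^ n = t :=
  ⟨t ^ (n : ℝ)⁻¹, one_lt_rpow ht (by positivity), rpow_inv_natCast_pow (by linarith) hn⟩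

omit [IsFiniteMeasureOnCompacts μ] in
theorem Low.mul {a b : ℝ} (ha : 0 < a) (A : Low μ a) (B : Low μ b) : Low μ (a * b) := by
  intro t ht
  obtain ⟨s, hs, rfl⟩ := root ht two_ne_zero
  have hs0 : 0 < s := one_pos.trans hs
  filter_upwards [A s hs, (tendsto_id.const_mul_atTop (mul_pos hs0 ha)).eventually (B s hs)]
    with R a1 a2
  simp only [id] at a2
  rw [show s ^ 2 * (a * b) * R = s * b * (s * a * R) by ring]
  nlinarith [mul_le_mul_of_nonneg_left a1 (sq_nonneg b), mul_le_mul_of_nonneg_left a2 hs0.le]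

omit [IsFiniteMeasureOnCompacts μ] in
theorem Low.pow {a : ℝ} (ha : 0 < a) (A : Low μ a) (n : ℕ) : Low μ (a ^ (n + 1)) := by
  induction n with
  | zero => simpa using A
  | succ n ih => rw [pow_succ]; exact ih.mul (by positivity) A

theorem low_ratio (hμ : μ ≠ 0) (hg : (volume : Measure ℂ).map g = volume) (D : Dir μ)
    (D' : Dir (μ.map g)) {z w : ℂ} (hz : z ≠ 0) (hw : w ≠ 0) {b : ℝ}
    (hb : ‖g z‖ / ‖z‖ = b * (‖g w‖ / ‖w‖)) : Low μ b := by
  intro t ht
  obtain ⟨s, hs, rfl⟩ := root ht (by norm_num : 8 ≠ 0)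
  have hs0 : 0 < s := one_pos.trans hs
  have p1 : 0 < ‖g z‖ / ‖z‖ := div_pos (by simpa using hz) (by simpa using hz)
  have p2 : 0 < ‖g w‖ / ‖w‖ := div_pos (by simpa using hw) (by simpa using hw)
  have hb0 : 0 < b := pos_of_mul_pos_left (hb ▸ p1) p2.le
  have e1 := two hμ hg D D' hz (div_pos p1 hs0) (div_lt_self p1 hs) (lt_mul_of_one_lt_left p1 hs) hs
  have e2 := two hμ hg D D' hw (div_pos p2 hs0) (div_lt_self p2 hs) (lt_mul_of_one_lt_left p2 hs) hs
  rw [hb] at e1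
  generalize ‖g w‖ / ‖w‖ = ρ at *
  filter_upwards [e1, (tendsto_id.const_mul_atTop (mul_pos (pow_pos hs0 2) hb0)).eventually e2,
    eventually_ge_atTop 0] with R a1 a2 hR
  have a3 := a2.2
  simp only [id] at a3
  rw [show ρ / s * (s ^ 2 * b * R) = s * (b * ρ) * R by field_simp] at a3
  have a4 : N μ (s ^ 2 * b * R) ≤ N μ (s ^ 8 * b * R) :=
    N_mono μ (by gcongr; exacts [hs.le, by norm_num])
  refine le_of_mul_le_mul_left ?_ (pow_pos (div_pos p2 hs0) 2)
  calc _ = (b * ρ / s) ^ 2 * N μ R := by ring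
    _ ≤ s ^ 2 * (s ^ 2 * (s * ρ) ^ 2 * N μ (s ^ 8 * b * R)) :=
      a1.1.trans (by gcongr; exact a3.trans (by gcongr))
    _ = _ := by field_simp

theorem reg_of_low (hμ : μ ≠ 0) (L : ∀ b, 0 < b → Low μ b) : Reg μ := by
  intro a ha
  refine approx fun ε hε => ?_
  obtain ⟨t, ht, e⟩ := root (t := 1 + ε / a ^ 2) (lt_add_of_pos_right _ (by positivity))
    three_ne_zero
  have ht0 : 0 < t := one_pos.trans ht
  refine ⟨_, _, a ^ 2, ε, tendsto_const_nhds, tendsto_const_nhds, le_rfl, by simpa using hε.le, ?_⟩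
  filter_upwards [L (a / t) (by positivity) t ht, (tendsto_id.const_mul_atTop ha).eventually
    (L (a * t)⁻¹ (by positivity) t ht), N_pos μ hμ] with R a1 a2 a3
  rw [mul_div_cancel₀ _ ht0.ne'] at a1
  simp only [id] at a2
  rw [show t * (a * t)⁻¹ * (a * R) = R by field_simp, inv_pow, inv_mul_le_iff₀ (by positivity)]
    at a2
  rw [div_pow, div_mul_eq_mul_div, div_le_iff₀ (by positivity)] at a1
  have e' : ε = (t ^ 3 - 1) * a ^ 2 := by rw [e]; field_simp; ring
  have t3 : 1 < t ^ 3 := one_lt_pow₀ ht three_ne_zero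
  rw [abs_le, le_sub_iff_add_le, sub_le_iff_le_add, le_div_iff₀ a3, div_le_iff₀ a3, e']
  refine ⟨le_of_mul_le_mul_left ?_ (pow_pos ht0 3), by nlinarith⟩
  nlinarith [mul_nonneg (mul_pos (pow_pos ha 2) a3).le (sq_nonneg (t ^ 3 - 1))]

theorem reg_of_dir (hμ : μ ≠ 0) (hg : (volume : Measure ℂ).map g = volume) (D : Dir μ)
    (D' : Dir (μ.map g)) (hn : ∃ z, ‖g z‖ ≠ ‖z‖) : Reg μ := by
  obtain ⟨z, w, hz, hw, hl⟩ : ∃ z w : ℂ, z ≠ 0 ∧ w ≠ 0 ∧ ‖g z‖ / ‖z‖ < ‖g w‖ / ‖w‖ := by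
    by_contra hc
    push Not at hc
    have e : ∀ z, ‖g z‖ = ‖g 1‖ * ‖z‖ := by
      intro z
      rcases eq_or_ne z 0 with rfl | hz
      · simp
      · rw [← div_eq_iff (norm_ne_zero_iff.2 hz)]
        simpa using le_antisymm (hc 1 z one_ne_zero hz) (hc z 1 hz one_ne_zero)
    have p : 0 < ‖g 1‖ := by simp
    have e1 : N (volume.map g) ‖g 1‖ = N volume 1 := by
      rw [N, N, map_measureReal_apply g.continuous.measurable measurableSet_closedBall]
      congr 1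
      ext z
      simp only [mem_preimage, mem_closedBall_zero_iff]
      rw [e z, mul_le_iff_le_one_right p]
    rw [hg, N_vol p.le, N_vol zero_le_one, mul_right_inj' pi_pos.ne',
      pow_left_inj₀ p.le zero_le_one two_ne_zero] at e1
    obtain ⟨z, hz⟩ := hn
    exact hz (by rw [e z, e1, one_mul])
  have p1 : 0 < ‖g z‖ / ‖z‖ := div_pos (by simpa using hz) (by simpa using hz)
  have p2 := p1.trans hl
  have I := (((isConnected_compl_singleton_of_one_lt_rank (by simp) (0 : ℂ)).isPreconnected).image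
    (fun z : ℂ => ‖g z‖ / ‖z‖) ((g.continuous.norm.continuousOn).div continuous_norm.continuousOn
      fun z hz => norm_ne_zero_iff.2 hz)).Icc_subset ⟨z, hz, rfl⟩ ⟨w, hw, rfl⟩
  refine reg_of_low hμ fun b hb => ?_
  have lim : Tendsto (fun n : ℕ => b ^ ((n + 1 : ℕ) : ℝ)⁻¹) atTop (𝓝 1) := by
    simpa [Function.comp_def] using (continuousAt_const_rpow hb.ne').tendsto.comp
      ((tendsto_inv_atTop_nhds_zero_nat (𝕜 := ℝ)).comp (tendsto_add_atTop_nat 1))
  obtain ⟨n, n1, n2⟩ := ((lim.eventually (lt_mem_nhds ((div_lt_one p2).2 hl))).and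
    (lim.eventually (gt_mem_nhds ((one_lt_div p1).2 hl)))).exists
  rw [← rpow_inv_natCast_pow hb.le n.succ_ne_zero]
  refine Low.pow (rpow_pos_of_pos hb _) ?_ n
  rw [div_lt_iff₀ p2] at n1
  rw [lt_div_iff₀ p1] at n2
  rcases le_total 1 (b ^ ((n + 1 : ℕ) : ℝ)⁻¹) with h | h
  · obtain ⟨y, hy, e⟩ := I ⟨le_mul_of_one_le_left p1.le h, n2.le⟩
    exact low_ratio hμ hg D D' hy hz e
  · obtain ⟨y, hy, e⟩ := I ⟨n1.le, mul_le_of_le_one_left p2.le h⟩
    exact low_ratio hμ hg D D' hy hw e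

end Pool.Agent.MP_16ecd2_an.H44
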