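import Pool.Agent.MP_16ecd2_an.H44.AbsA

/-!
A monotone function that is asymptotically a martingale for kernels of small support is
asymptotically affine.
-/

namespace Pool.Agent.MP_16ecd2_an.H44

open Set Filter Topology Real MeasureTheory Metric

theorem maxp {w : ℝ → ℝ} {I P : Set ℝ} {M γ : ℝ} (hb : BddAbove (w '' I)) (hγ : 0 < γ)
    (h1 : ∀ y ∈ I, y ∈ P → w y ≤ M)
    (h2 : ∀ y ∈ I, y ∉ P → ∀ S, (∀ x ∈ I, w x ≤ S) → w y + γ ≤ S) : ∀ y ∈ I, w y ≤ M := by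
  intro y hy
  have s1 : ∀ x ∈ I, w x ≤ sSup (w '' I) := fun x hx => le_csSup hb ⟨x, hx, rfl⟩
  have s2 : sSup (w '' I) ≤ max M (sSup (w '' I) - γ) := by
    refine csSup_le ⟨_, y, hy, rfl⟩ ?_
    rintro _ ⟨x, hx, rfl⟩
    by_cases h : x ∈ P
    · exact (h1 x hx h).trans (le_max_left _ _)
    · exact le_max_of_le_right (le_sub_iff_add_le.2 (h2 x hx h _ s1))
  exact (s1 y hy).trans ((le_max_iff.1 s2).elim id fun h => by linarith)

variable {Ω : Type} [MeasurableSpace Ω] {ν : Measure Ω} [IsProbabilityMeasure ν] {n : ℝ → ℝ}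

/-- Kernels of mean one and small support that asymptotically fix `n`. -/
def Avg (ν : Measure Ω) (n : ℝ → ℝ) : Prop :=
  ∀ δ : ℝ, 0 < δ → ∃ τ : Ω → ℝ, Measurable τ ∧ (∀ u, (1 + δ)⁻¹ ≤ τ u ∧ τ u ≤ 1 + δ) ∧
    ∫ u, τ u ∂ν = 1 ∧ 1 < ∫ u, τ u ^ 2 ∂ν ∧
      Tendsto (fun s => (∫ u, n (τ u * s) ∂ν) / n s) atTop (𝓝 1)

/-- Doubling bound. -/
def Pot (n : ℝ → ℝ) : Prop := ∀ l : ℝ, ∃ C : ℝ, 0 < C ∧ ∀ᶠ s in atTop, n (l * s) ≤ C * n s

theorem maxp2 (hm : Monotone n) (hp : ∀ᶠ s in atTop, 0 < n s) (h0 : ∀ s, 0 ≤ n s) (hP : Pot n)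
    (hA : Avg ν n) {σ y0 y1 η δ : ℝ} (hσ : |σ| ≤ 1) (k0 : 0 < y0) (k1 : y0 < y1) (hη : 0 < η)
    (hδ : 0 < δ) : ∀ᶠ s in atTop, ∀ A B M : ℝ,
      (∀ y ∈ Icc y0 y1, (y < y0 * (1 + δ) ∨ y1 < y * (1 + δ)) → σ * n (y * s) - A - B * y ≤ M) →
      ∀ y ∈ Icc y0 y1, σ * n (y * s) - A - B * y ≤ M + η * n s := by
  obtain ⟨τ, t1, t2, t3, t4, t5⟩ := hA δ hδ
  obtain ⟨C, hC, hC'⟩ := hP y1
  set κ := η / (y1 - y0) ^ 2 with hκ
  have κ0 : 0 < κ := div_pos hη (pow_pos (sub_pos.2 k1) 2)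
  set V := ∫ u, τ u ^ 2 ∂ν - 1 with hV
  have V0 : 0 < V := sub_pos.2 t4
  obtain ⟨s1, hs1⟩ := eventually_atTop.1 (hp.and (Metric.tendsto_nhds.1 t5
    (κ * y0 ^ 2 * V / 2 / C) (by positivity)))
  filter_upwards [hp, hC', eventually_gt_atTop 0,
    (tendsto_id.const_mul_atTop k0).eventually_ge_atTop s1] with s a1 a2 a3 a4 A B M hM y hy
  have d0 : 0 < 1 + δ := by linarith
  have ib : ∀ {f : Ω → ℝ} (c : ℝ), Measurable f → (∀ u, 0 ≤ f u ∧ f u ≤ c) → Integrable f ν :=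
    fun c hf h => Integrable.of_bound hf.aestronglyMeasurable c
      (.of_forall fun u => by rw [Real.norm_of_nonneg (h u).1]; exact (h u).2)
  have τ0 : ∀ u, 0 ≤ τ u := fun u => (inv_pos.2 d0).le.trans (t2 u).1
  have i1 : Integrable τ ν := ib _ t1 fun u => ⟨τ0 u, (t2 u).2⟩
  have i2 : Integrable (fun u => τ u ^ 2) ν := ib ((1 + δ) ^ 2) (t1.pow_const 2) fun u =>
    ⟨sq_nonneg _, pow_le_pow_left₀ (τ0 u) (t2 u).2 2⟩
  have q : ∀ x ∈ Icc y0 y1, κ * n s * ((x - y0) * (x - y1)) ≤ 0 := fun x hx =>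
    mul_nonpos_of_nonneg_of_nonpos (by positivity)
      (mul_nonpos_of_nonneg_of_nonpos (sub_nonneg.2 hx.1) (sub_nonpos.2 hx.2))
  have nb : ∀ x ∈ Icc y0 y1, n (x * s) ≤ C * n s := fun x hx =>
    (hm (mul_le_mul_of_nonneg_right hx.2 a3.le)).trans a2
  have key := maxp (w := fun y => σ * n (y * s) - A - B * y + κ * n s * ((y - y0) * (y - y1)))
    (I := Icc y0 y1) (P := {y | y < y0 * (1 + δ) ∨ y1 < y * (1 + δ)}) (M := M)
    (γ := κ * y0 ^ 2 * V / 2 * n s) ⟨C * n s - A + |B| * y1, ?_⟩ (by positivity)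
    (fun x hx h => by linarith [hM x hx h, q x hx]) ?_ y hy
  · have : (y - y0) * (y1 - y) ≤ (y1 - y0) ^ 2 := by nlinarith [hy.1, hy.2]
    have e : η = κ * (y1 - y0) ^ 2 := by
      rw [hκ, div_mul_cancel₀ _ (pow_pos (sub_pos.2 k1) 2).ne']
    rw [e]
    nlinarith [mul_le_mul_of_nonneg_left this (mul_pos κ0 a1).le]
  · rintro _ ⟨x, hx, rfl⟩
    have b1 : σ * n (x * s) ≤ n (x * s) := mul_le_of_le_one_left (h0 _) (abs_le.1 hσ).2
    have b2 : -B * x ≤ |B| * y1 :=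
      mul_le_mul (neg_le_abs B) hx.2 (k0.le.trans hx.1) (abs_nonneg _)
    linarith [q x hx, nb x hx]
  · intro x hx h S hS
    simp only [mem_ofPred_eq, not_or, not_lt] at h
    have x0 : 0 < x := k0.trans_le hx.1
    have i3 : Integrable (fun u => n (τ u * (x * s))) ν :=
      ib (n ((1 + δ) * (x * s))) (hm.measurable.comp (t1.mul_const _)) fun u =>
        ⟨h0 _, hm (mul_le_mul_of_nonneg_right (t2 u).2 (by positivity))⟩
    have le : ∫ u, (σ * n (τ u * (x * s)) + ((-B * x - κ * n s * (y0 + y1) * x) * τ u +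
        (κ * n s * x ^ 2 * τ u ^ 2 + (κ * n s * (y0 * y1) - A)))) ∂ν ≤ ∫ _, S ∂ν := by
      refine integral_mono ((i3.const_mul _).add ((i1.const_mul _).add
        ((i2.const_mul _).add (integrable_const _)))) (integrable_const _) fun u => ?_
      have m : τ u * x ∈ Icc y0 y1 := by
        constructor
        · calc y0 = (1 + δ)⁻¹ * (y0 * (1 + δ)) := by field_simp
            _ ≤ τ u * x := mul_le_mul (t2 u).1 h.1 (by positivity) (τ0 u)
        · nlinarith [mul_le_mul_of_nonneg_right (t2 u).2 x0.le, h.2]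
      have := hS _ m
      rw [mul_assoc (τ u)] at this
      beta_reduce
      linarith
    rw [integral_add (i3.const_mul _) (by exact (i1.const_mul _).add ((i2.const_mul _).add
      (integrable_const _))), integral_add (i1.const_mul _)
      (by exact (i2.const_mul _).add (integrable_const _)), integral_add (i2.const_mul _)
      (integrable_const _), integral_const_mul, integral_const_mul, integral_const_mul, t3,
      show ∫ u, τ u ^ 2 ∂ν = V + 1 by rw [hV]; ring] at le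
    simp only [integral_const, probReal_univ, one_smul] at le
    obtain ⟨c1, c2⟩ := hs1 (x * s) (le_trans a4 (mul_le_mul_of_nonneg_right hx.1 a3.le))
    rw [Real.dist_eq, div_sub_one c1.ne', abs_div, abs_of_pos c1, div_lt_iff₀ c1] at c2
    have c3 : |σ * (∫ u, n (τ u * (x * s)) ∂ν - n (x * s))| ≤ κ * y0 ^ 2 * V / 2 * n s := by
      rw [abs_mul]
      refine (mul_le_of_le_one_left (abs_nonneg _) hσ).trans (c2.le.trans ?_)
      calc _ ≤ κ * y0 ^ 2 * V / 2 / C * (C * n s) := by gcongr; exact nb x hx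
        _ = _ := by field_simp
    have c4 : κ * n s * V * y0 ^ 2 ≤ κ * n s * V * x ^ 2 := by gcongr; exact hx.1
    linarith [(abs_le.1 c3).1]

theorem affine (hm : Monotone n) (hp : ∀ᶠ s in atTop, 0 < n s) (h0 : ∀ s, 0 ≤ n s) (hP : Pot n)
    (hA : Avg ν n) {a c η : ℝ} (ha : 0 < a) (hc : a < c) (hη : 0 < η) :
    ∀ᶠ s in atTop, ∃ A B : ℝ, ∀ y ∈ Icc a c, |n (y * s) - A - B * y| ≤ η * n s := by
  obtain ⟨C, hC, hC'⟩ := hP c
  have c0 : 0 < c := ha.trans hc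
  have d0 : 0 < c - a := sub_pos.2 hc
  set δ := η / 2 * (c - a) / (C * c) with hδ
  have δ0 : 0 < δ := by positivity
  have l1 : a / (1 + δ) ≤ a := div_le_self ha.le (by linarith)
  have l2 : c ≤ c * (1 + δ) := le_mul_of_one_le_right c0.le (by linarith)
  filter_upwards [maxp2 hm hp h0 hP hA (σ := 1) (y0 := a / (1 + δ)) (by simp) (by positivity)
      (l1.trans_lt hc) (half_pos hη) δ0,
    maxp2 hm hp h0 hP hA (σ := -1) (by simp) ha (hc.trans_le l2) (half_pos hη) δ0, hC',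
    eventually_gt_atTop 0] with s a1 a2 a3 a4
  have mo : ∀ {x y}, x ≤ y → n (x * s) ≤ n (y * s) := fun h =>
    hm (mul_le_mul_of_nonneg_right h a4.le)
  obtain ⟨B, hB⟩ : ∃ B, B * (c - a) = n (c * s) - n (a * s) := ⟨_, div_mul_cancel₀ _ d0.ne'⟩
  have B0 : 0 ≤ B := nonneg_of_mul_nonneg_left (hB ▸ sub_nonneg.2 (mo hc.le)) d0
  have B1 : B * (c * δ) ≤ η / 2 * n s := by
    calc B * (c * δ) = η / 2 / C * (B * (c - a)) := by rw [hδ]; field_simp
      _ ≤ η / 2 / C * (C * n s) :=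
        mul_le_mul_of_nonneg_left (by linarith [h0 (a * s)]) (by positivity)
      _ = _ := by field_simp
  have B2 : ∀ {x}, x ≤ c * δ → B * x ≤ B * (c * δ) := fun h => mul_le_mul_of_nonneg_left h B0
  refine ⟨n (a * s) - B * a, B, fun y hy => abs_le.2 ⟨?_, ?_⟩⟩
  · have := a2 (-(n (a * s) - B * a)) (-B) (B * (c * δ)) (fun x hx h => ?_) y ⟨hy.1, hy.2.trans l2⟩
    · linarith
    · rcases h with h | h
      · linarith [mo hx.1, B2 (show x - a ≤ c * δ by nlinarith)]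
      · have : c ≤ x := (lt_of_mul_lt_mul_right h (by linarith)).le
        linarith [mo this, B2 (show x - c ≤ c * δ by linarith [hx.2])]
  · have := a1 (n (a * s) - B * a) B (B * (c * δ)) (fun x hx h => ?_) y ⟨l1.trans hy.1, hy.2⟩
    · linarith
    · rcases h with h | h
      · rw [div_mul_cancel₀ _ (by linarith)] at h
        have := (div_le_iff₀ (by linarith)).1 hx.1
        linarith [mo h.le, B2 (show a - x ≤ c * δ by nlinarith [hx.2])]
      · linarith [mo hx.2, B2 (show c - x ≤ c * δ by nlinarith [hx.2])]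

theorem grow (hp : ∀ᶠ s in atTop, 0 < n s)
    (hA : ∀ᶠ s in atTop, ∃ A B : ℝ, ∀ y ∈ Icc (1 : ℝ) 8, |n (y * s) - A - B * y| ≤ 100⁻¹ * n s)
    {c : ℝ} (hc : 0 < c) (hl : ∀ᶠ s in atTop, c * s ≤ n s ^ 2) :
    ∀ᶠ s in atTop, 5 / 4 * n s ≤ n (2 * s) := by
  have fr : ∃ᶠ s in atTop, 5 / 4 * n s ≤ n (2 * s) := by
    by_contra h
    obtain ⟨s, hs⟩ := eventually_atTop.1
      (((not_frequently.1 h).and hl).and (hp.and (eventually_gt_atTop 0)))
    have s0 : 0 < s := (hs s le_rfl).2.2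
    have ge : ∀ k : ℕ, s ≤ 2 ^ k * s := fun k =>
      le_mul_of_one_le_left s0.le (one_le_pow₀ one_le_two)
    have b : ∀ k : ℕ, n (2 ^ k * s) ≤ (5 / 4) ^ k * n s := by
      intro k
      induction k with
      | zero => simp
      | succ k ih =>
        have := not_le.1 (hs _ (ge k)).1.1
        rw [pow_succ', pow_succ', mul_assoc, mul_assoc]
        linarith
    obtain ⟨k, hk⟩ := (((tendsto_pow_atTop_nhds_zero_of_lt_one (by norm_num : (0 : ℝ) ≤ 25 / 32)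
      (by norm_num)).mul_const (n s ^ 2)).eventually
        (gt_mem_nhds (by simpa using mul_pos hc s0 : 0 * n s ^ 2 < c * s))).exists
    have e : ((5 / 4 : ℝ) ^ k * n s) ^ 2 = 2 ^ k * ((25 / 32) ^ k * n s ^ 2) := by
      rw [mul_pow, ← pow_mul, mul_comm k 2, pow_mul, ← mul_assoc, ← mul_pow]
      norm_num
    have := (hs _ (ge k)).1.2.trans (pow_le_pow_left₀ (hs _ (ge k)).2.1.le (b k) 2)
    rw [e] at this
    nlinarith [pow_pos (two_pos : (0 : ℝ) < 2) k]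
  obtain ⟨s1, hs1⟩ := eventually_atTop.1 (hA.and (hp.and (eventually_gt_atTop 0)))
  have step : ∀ s, s1 ≤ s → 5 / 4 * n s ≤ n (2 * s) → ∀ b ∈ Icc (2 : ℝ) 4,
      5 / 4 * n (b * s) ≤ n (2 * (b * s)) := by
    intro s hs g b hb
    obtain ⟨⟨A, B, h⟩, p, -⟩ := hs1 s hs
    have e1 := abs_le.1 (h 1 ⟨le_rfl, by norm_num⟩)
    have e2 := abs_le.1 (h 2 ⟨by norm_num, by norm_num⟩)
    have e3 := abs_le.1 (h b ⟨by linarith [hb.1], by linarith [hb.2]⟩)
    have e4 := abs_le.1 (h (2 * b) ⟨by linarith [hb.1], by linarith [hb.2]⟩)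
    rw [one_mul] at e1
    rw [mul_assoc] at e4
    have : B * 2 ≤ B * b := mul_le_mul_of_nonneg_left hb.1 (by linarith [e1.1, e2.2])
    linarith [e1.1, e2.2, e3.2, e4.1]
  obtain ⟨s, g, hs⟩ := (fr.and_eventually (eventually_ge_atTop s1)).exists
  have s0 : 0 < s := (hs1 s hs).2.2
  have all : ∀ k : ℕ, ∀ t, 2 * s ≤ t → t ≤ 2 ^ k * (4 * s) → 5 / 4 * n t ≤ n (2 * t) := by
    have base : ∀ t, 2 * s ≤ t → t ≤ 4 * s → 5 / 4 * n t ≤ n (2 * t) := fun t h1 h2 => by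
      have := step s hs g (t / s) ⟨(le_div_iff₀ s0).2 h1, (div_le_iff₀ s0).2 h2⟩
      rwa [div_mul_cancel₀ _ s0.ne'] at this
    intro k
    induction k with
    | zero => simpa using base
    | succ k ih =>
      intro t h1 h2
      rcases le_total t (4 * s) with h | h
      · exact base t h1 h
      · have := step (t / 2) (by linarith) (ih _ (by linarith) (by rw [pow_succ] at h2; linarith))
          2 ⟨le_rfl, by norm_num⟩
        rwa [mul_div_cancel₀ _ two_ne_zero] at this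
  filter_upwards [eventually_ge_atTop (2 * s)] with t ht
  obtain ⟨k, hk⟩ := pow_unbounded_of_one_lt (t / (4 * s)) (one_lt_two : (1 : ℝ) < 2)
  exact all k t ht ((div_lt_iff₀ (by positivity)).1 hk).le

theorem reg_of_avg (hm : Monotone n) (h0 : ∀ s, 0 ≤ n s) (hP : Pot n) (hA : Avg ν n) {c : ℝ}
    (hc : 0 < c) (hl : ∀ᶠ s in atTop, c * s ≤ n s ^ 2) {b : ℝ} (hb : 0 < b) :
    Tendsto (fun s => n (b * s) / n s) atTop (𝓝 b) := by
  have hp : ∀ᶠ s in atTop, 0 < n s := by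
    filter_upwards [hl, eventually_gt_atTop 0] with s a1 a2
    refine (h0 s).lt_of_ne fun e => ?_
    rw [← e] at a1
    nlinarith [mul_pos hc a2]
  have hg := grow hp (affine hm hp h0 hP hA one_pos (by norm_num) (by norm_num)) hc hl
  obtain ⟨C, hC, hC'⟩ := hP 2
  refine approx fun ε hε => ⟨_, _, b, ε, tendsto_const_nhds, tendsto_const_nhds, le_rfl,
    by simpa using hε.le, ?_⟩
  obtain ⟨K, hK⟩ := (((eventually_ge_atTop (2 : ℝ)).and (eventually_ge_atTop b⁻¹)).and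
    (eventually_ge_atTop (8 * ((C + 4) + (C + 4) * (1 + b) / ε)))).exists
  have K0 : 0 < K := by linarith [hK.1.1]
  have Kb : 1 ≤ K * b := by simpa [hb.ne'] using mul_le_mul_of_nonneg_right hK.1.2 hb.le
  have ev := (affine hm hp h0 hP hA one_pos (c := K + K * b) (by linarith [hK.1.1])
    (by norm_num : (0 : ℝ) < 16⁻¹)).and (hg.and (hC'.and hp))
  filter_upwards [(tendsto_id.const_mul_atTop (inv_pos.2 K0)).eventually ev, hp] with t ht pt
  obtain ⟨⟨A, B, h⟩, g1, g2, p⟩ := ht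
  simp only [id] at h g1 g2 p
  have e1 := abs_le.1 (h 1 ⟨le_rfl, by linarith⟩)
  have e2 := abs_le.1 (h 2 ⟨one_le_two, by linarith [hK.1.1]⟩)
  have e3 := abs_le.1 (h K ⟨by linarith [hK.1.1], by linarith⟩)
  have e4 := abs_le.1 (h (K * b) ⟨Kb, by linarith⟩)
  rw [one_mul] at e1
  rw [mul_inv_cancel_left₀ K0.ne'] at e3
  rw [show K * b * (K⁻¹ * t) = b * t by field_simp] at e4
  generalize n (K⁻¹ * t) = m at *
  have hB : m / 8 ≤ B := by linarith [e1.1, e2.2]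
  have hA1 : A ≤ (C + 3) * m := by nlinarith [e1.1]
  have hA2 : -((C + 3) * m) ≤ A := by linarith [e1.2, e2.1]
  have d1 : (C + 4) * (1 + b) * m ≤ ε * n t := by
    have k1 : m / 8 * (8 * ((C + 4) + (C + 4) * (1 + b) / ε)) ≤ B * K :=
      mul_le_mul hB hK.2 (by positivity) (by linarith)
    have k2 : (C + 4) * (1 + b) / ε * m ≤ n t := by linarith [e3.1]
    rwa [div_mul_eq_mul_div, div_le_iff₀' hε] at k2
  rw [div_sub' pt.ne', abs_div, abs_of_pos pt, div_le_iff₀ pt]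
  refine le_trans (abs_le.2 ⟨?_, ?_⟩) d1
  · nlinarith [mul_le_mul_of_nonneg_left e3.2 hb.le, mul_le_mul_of_nonneg_left hA1 hb.le, e4.1,
      mul_pos hb p]
  · nlinarith [mul_le_mul_of_nonneg_left e3.1 hb.le, mul_le_mul_of_nonneg_left hA2 hb.le, e4.2,
      mul_pos hb p]

end Pool.Agent.MP_16ecd2_an.H44
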