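import Pool.Agent.MP_16ecd2_an.H44.Defs
import Pool.Agent.MP_16ecd2_an.H44.AbsB
import Pool.Agent.MP_16ecd2_an.H44.AbsC

/-!
The counting measure of holonomy vectors.
-/

namespace Pool.Agent.MP_16ecd2_an.H44

open Set Filter Topology Real MeasureTheory Metric

theorem hom_arg {f : Real.Angle → ℝ} (hf : Continuous f) : Hom fun z => f (Complex.arg z) :=
  ⟨fun z hz => (hf.continuousAt.comp (Complex.continuousAt_arg_coe_angle hz)).continuousWithinAt,
    fun t ht z => by simp only [Complex.real_smul, Complex.arg_real_mul z ht]⟩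

theorem polar (f : Real.Angle → ℝ) :
    π⁻¹ * J volume (fun z => f (Complex.arg z)) 1 = (2 * π)⁻¹ * ∫ θ in (0 : ℝ)..2 * π, f θ := by
  have e1 : ∫ θ in (0 : ℝ)..2 * π, f θ = ∫ θ in Ioo (-π) π, f θ := by
    have p : Function.Periodic (fun θ : ℝ => f θ) (2 * π) := fun θ => by
      simp only [Real.Angle.coe_add, Real.Angle.coe_two_pi, add_zero]
    have := p.intervalIntegral_add_eq 0 (-π)
    rw [zero_add, show -π + 2 * π = π by ring] at this
    rw [this, intervalIntegral.integral_of_le (by linarith [pi_pos]), integral_Ioc_eq_integral_Ioo]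
  have e2 : ∫ r in Ioi (0 : ℝ), (Iic 1).indicator (fun r : ℝ => r) r = 2⁻¹ := by
    rw [setIntegral_indicator measurableSet_Iic, Ioi_inter_Iic,
      ← intervalIntegral.integral_of_le zero_le_one, integral_id]
    norm_num
  rw [e1, J, ← integral_indicator measurableSet_closedBall,
    ← Complex.integral_comp_polarCoord_symm, polarCoord_target,
    setIntegral_congr_fun (measurableSet_Ioi.prod measurableSet_Ioo)
      (g := fun p : ℝ × ℝ => (Iic 1).indicator (fun r : ℝ => r) p.1 * f p.2),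
    Measure.volume_eq_prod, setIntegral_prod_mul _ fun θ : ℝ => f θ, e2]
  · ring
  · rintro ⟨r, θ⟩ ⟨hr, hθ⟩
    have hr' : 0 < r := hr
    have a : Complex.arg (Complex.polarCoord.symm (r, θ)) = θ := by
      rw [Complex.polarCoord_symm_apply, Complex.ofReal_cos, Complex.ofReal_sin]
      exact Complex.arg_mul_cos_add_sin_mul_I hr' (Ioo_subset_Ioc_self hθ)
    have b : Complex.polarCoord.symm (r, θ) ∈ closedBall (0 : ℂ) 1 ↔ r ∈ Iic (1 : ℝ) := by
      rw [mem_closedBall_zero_iff, Complex.norm_polarCoord_symm, abs_of_pos hr', mem_Iic]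
    beta_reduce
    by_cases h : r ∈ Iic (1 : ℝ)
    · rw [indicator_of_mem h, indicator_of_mem (b.2 h), a, smul_eq_mul]
    · rw [indicator_of_notMem h, indicator_of_notMem (mt b.1 h), smul_zero, zero_mul]

theorem Hom.eq_arg {h : ℂ → ℝ} (H : Hom h) :
    ∃ f : Real.Angle → ℝ, Continuous f ∧ ∀ z, z ≠ 0 → h z = f (Complex.arg z) := by
  refine ⟨fun θ => h (θ.cos + θ.sin * Complex.I), H.1.comp_continuous
    ((Complex.continuous_ofReal.comp Real.Angle.continuous_cos).add
      ((Complex.continuous_ofReal.comp Real.Angle.continuous_sin).mul continuous_const))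
    fun θ e => ?_, fun z hz => ?_⟩
  · have := θ.cos_sq_add_sin_sq
    simp only [mem_singleton_iff, Complex.ext_iff] at e
    simp at e
    simp [e.1, e.2] at this
  · beta_reduce
    rw [← H.2 _ (norm_pos_iff.2 hz) (_ + _), Real.Angle.cos_coe, Real.Angle.sin_coe,
      Complex.real_smul, Complex.ofReal_cos, Complex.ofReal_sin,
      Complex.norm_mul_cos_add_sin_mul_I]

theorem map_vol (g : ℂ ≃L[ℝ] ℂ) (hg : LinearMap.det (g : ℂ →ₗ[ℝ] ℂ) = 1) :
    (volume : Measure ℂ).map g = volume := by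
  have := Measure.map_linearMap_addHaar_eq_smul_addHaar (volume : Measure ℂ)
    (f := (g : ℂ →ₗ[ℝ] ℂ)) (by rw [hg]; exact one_ne_zero)
  simpa [hg] using this

theorem Pl.map {μ : Measure ℂ} {n : ℝ → ℝ} (P : Pl μ n) (g : ℂ ≃L[ℝ] ℂ)
    (hg : (volume : Measure ℂ).map g = volume) : Pl (μ.map g) n := by
  intro f f1 f2
  have m := g.toHomeomorph.measurableEmbedding
  have := P (fun z => f (g z)) (f1.comp g.continuous) (f2.comp_homeomorph g.toHomeomorph)
  rw [← hg, show ∫ z, f z ∂(volume.map g) = ∫ z, f (g z) from m.integral_map f]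
  refine this.congr fun R => ?_
  rw [show ∫ z, f (R⁻¹ • z) ∂(μ.map g) = ∫ z, f (R⁻¹ • g z) ∂μ from m.integral_map _]
  simp only [map_smul]

theorem Pl.count {μ : Measure ℂ} [IsFiniteMeasureOnCompacts μ] {n : ℝ → ℝ} (P : Pl μ n)
    (hn : ∀ R, 0 ≤ n R) {a : ℝ} (ha : 0 ≤ a) :
    Tendsto (fun R => N μ (a * R) / n R) atTop (𝓝 (a ^ 2)) := by
  simpa only [J_one, N_vol ha, inv_mul_cancel_left₀ pi_pos.ne'] using P.sector hn hom_one a

theorem Pl.dir {μ : Measure ℂ} [IsFiniteMeasureOnCompacts μ] {n : ℝ → ℝ} (P : Pl μ n)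
    (hn : ∀ᶠ R in atTop, 0 < n R) (hn' : ∀ R, 0 ≤ n R) : Dir μ := by
  intro h H
  have := (P.sector hn' H 1).div (P.count hn' zero_le_one) (by simp)
  simp only [one_pow, div_one, one_mul] at this
  refine this.congr' ?_
  filter_upwards [hn] with R hR
  simp only [Pi.div_apply]
  exact div_div_div_cancel_right₀ hR.ne' _ _

namespace Surf

variable {E : Type} (X : Surf E)

/-- One unit of mass at the holonomy vector of each saddle connection. -/
noncomputable def mu : Measure ℂ := Measure.sum fun c : X.SC => Measure.dirac c.1.2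

theorem mu_map {Y : Surf E} (σ : X.SC ≃ Y.SC) {g : ℂ → ℂ} (hg : Measurable g)
    (h : ∀ c, (σ c).1.2 = g c.1.2) : X.mu.map g = Y.mu := by
  rw [mu, mu, Measure.map_sum hg.aemeasurable, ← Measure.sum_comp_equiv σ]
  congr 1
  funext c
  simp [Measure.map_dirac' hg, h]

theorem mu_neg : X.mu.map (fun z => -z) = X.mu :=
  let ⟨σ, h⟩ := X.exists_rev
  X.mu_map σ measurable_neg h

theorem mu_act (g : ℂ ≃L[ℝ] ℂ) (hg : LinearMap.det (g : ℂ →ₗ[ℝ] ℂ) = 1) :
    X.mu.map g = (X.act g hg).mu :=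
  X.mu_map (Equiv.subtypeEquiv ((Equiv.refl E).prodCongr g.toEquiv)
    fun c => X.mem_act g.toLinearEquiv hg c) g.continuous.measurable fun _ => rfl

theorem mu_zero : X.mu {0} = 0 := by
  simp [mu, Measure.sum_apply _ (measurableSet_singleton _), fun c : X.SC => X.ne_zero c.2]

theorem mu_ne [Nonempty E] : X.mu ≠ 0 := by
  obtain ⟨e⟩ := ‹Nonempty E›
  intro h
  have := Measure.le_sum (fun c : X.SC => Measure.dirac c.1.2) ⟨(e, X.vec e), Or.inl rfl⟩ univ
  rw [← mu, h] at this
  simp at this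

variable [Fintype E]

theorem mem_ball {R : ℝ} {c : E × ℂ} : c ∈ X.ball R ↔ c ∈ X.SC ∧ ‖c.2‖ ≤ R := by
  simp [ball]

theorem mu_restrict (R : ℝ) :
    X.mu.restrict (closedBall 0 R) = ∑ c ∈ X.ball R, Measure.dirac c.2 := by
  ext A hA
  rw [Measure.restrict_apply hA, mu, Measure.sum_apply _ (hA.inter measurableSet_closedBall),
    tsum_subtype X.SC fun c => Measure.dirac c.2 (A ∩ closedBall 0 R),
    tsum_eq_sum (s := X.ball R), Measure.finsetSum_apply]
  · refine Finset.sum_congr rfl fun c hc => ?_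
    rw [mem_ball] at hc
    rw [indicator_of_mem hc.1]
    by_cases h : c.2 ∈ A <;> simp [h, hc.2]
  · intro c hc
    rw [mem_ball] at hc
    by_cases h : c ∈ X.SC
    · simp [h, show ¬‖c.2‖ ≤ R from fun k => hc ⟨h, k⟩]
    · exact indicator_of_notMem h _

instance mu_fin : IsFiniteMeasureOnCompacts X.mu := ⟨fun K hK => by
  obtain ⟨R, hR⟩ := hK.isBounded.subset_closedBall 0
  refine (measure_mono hR).trans_lt ?_
  rw [← Measure.restrict_apply_univ, mu_restrict]
  exact measure_lt_top _ _⟩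

theorem J_mu (F : ℂ → ℝ) (R : ℝ) : J X.mu F R = ∑ c ∈ X.ball R, F c.2 := by
  rw [J, mu_restrict, integral_finsetSum_measure fun c _ => integrable_dirac (by simp)]
  simp

theorem N_mu : N X.mu = X.cnt := funext fun R => by simp [← J_one, J_mu, cnt]

theorem equi_iff : X.Equi ↔ Dir X.mu := by
  constructor
  · intro H h hh
    obtain ⟨f, f1, f2⟩ := hh.eq_arg
    have e : J volume h 1 = J volume (fun z => f (Complex.arg z)) 1 :=
      integral_congr_ae (ae_restrict_of_ae (mem_of_superset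
        (compl_mem_ae_iff.2 (measure_singleton (0 : ℂ))) f2))
    rw [e, polar, N_mu]
    refine (H f f1).congr fun R => ?_
    rw [J_mu, Finset.sum_congr rfl fun c hc => f2 _ (X.ne_zero (X.mem_ball.1 hc).1)]
  · intro H f hf
    simpa only [polar, N_mu, J_mu] using H _ (hom_arg hf)

theorem int_mu {f : ℂ → ℝ} (f2 : HasCompactSupport f) {R : ℝ} (hR : 0 < R) :
    ∫ z, f (R⁻¹ • z) ∂X.mu = ∑ᶠ c ∈ X.SC, f (R⁻¹ • c.2) := by
  obtain ⟨T, hT⟩ := (f2.comp_smul (inv_pos.2 hR).ne').isCompact.isBounded.subset_closedBall 0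
  have z0 : ∀ z, z ∉ closedBall (0 : ℂ) T → f (R⁻¹ • z) = 0 := fun z hz =>
    image_eq_zero_of_notMem_tsupport (f := fun z => f (R⁻¹ • z)) fun h => hz (hT h)
  rw [← setIntegral_eq_integral_of_forall_compl_eq_zero z0, ← J, J_mu]
  refine (finsum_mem_eq_sum_of_inter_support_eq _ ?_).symm
  ext c
  simp only [mem_inter_iff, Finset.mem_coe, mem_ball, Function.mem_support]
  refine ⟨fun h => ⟨⟨h.1, ?_⟩, h.2⟩, fun h => ⟨h.1.1, h.2⟩⟩
  by_contra k
  exact h.2 (z0 _ (by simpa using k))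

end Surf

end Pool.Agent.MP_16ecd2_an.H44
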