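import Pool.Agent.MP_16ecd2_an.H44.AbsE
import Pool.Agent.MP_16ecd2_an.H44.Meas

/-!
If ellipses of equal area carry asymptotically equal mass, the mass is regularly varying.
-/

namespace Pool.Agent.MP_16ecd2_an.H44

open Set Filter Topology Real MeasureTheory Metric Asymptotics ComplexConjugate

/-- The real-linear map `z ↦ p z + q conj z`. -/
noncomputable def su (p q : ℂ) : ℂ →ₗ[ℝ] ℂ where
  toFun z := p * z + q * conj z
  map_add' a b := by simp only [map_add]; ring
  map_smul' t a := by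
    simp only [Complex.real_smul, map_mul, Complex.conj_ofReal, RingHom.id_apply]
    ring

theorem su_apply (p q z : ℂ) : su p q z = p * z + q * conj z := rfl

theorem det_su (p q : ℂ) : LinearMap.det (su p q) = ‖p‖ ^ 2 - ‖q‖ ^ 2 := by
  have := dt_map (su p q) 1 Complex.I
  simp only [dt, su_apply] at this
  simp only [Complex.sq_norm, Complex.normSq_apply]
  simp at this
  linarith

theorem su_comp (a b c d : ℂ) :
    su a b ∘ₗ su c d = su (a * c + b * conj d) (a * d + b * conj c) := by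
  refine LinearMap.ext fun z => ?_
  simp only [LinearMap.comp_apply, su_apply, map_add, map_mul, Complex.conj_conj]
  ring

theorem eq_su (g : ℂ →ₗ[ℝ] ℂ) : ∃ p q, g = su p q := by
  refine ⟨(g 1 - Complex.I * g Complex.I) / 2, (g 1 + Complex.I * g Complex.I) / 2,
    Complex.basisOneI.ext fun i => ?_⟩
  fin_cases i
  · simp [su_apply]; ring
  · simp only [su_apply, Complex.coe_basisOneI, Fin.mk_one, Matrix.cons_val_one,
      Matrix.cons_val_zero, Complex.conj_I]
    linear_combination (g Complex.I) * Complex.I_mul_I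

theorem su_le (p q z : ℂ) :
    (‖p‖ - ‖q‖) * ‖z‖ ≤ ‖su p q z‖ ∧ ‖su p q z‖ ≤ (‖p‖ + ‖q‖) * ‖z‖ := by
  have a := norm_sub_le_norm_add (p * z) (q * conj z)
  have b := norm_add_le (p * z) (q * conj z)
  simp only [norm_mul, Complex.norm_conj] at a b
  rw [su_apply]
  constructor <;> linarith

theorem su_cont (p q : ℂ) : Continuous (su p q) := (su p q).continuous_of_finiteDimensional

/-- Mass of an ellipse. -/
noncomputable def El (μ : Measure ℂ) (g : ℂ →ₗ[ℝ] ℂ) (R : ℝ) : ℝ := μ.real {z | ‖g z‖ ≤ R}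

/-- Ellipses and discs of the same area carry asymptotically the same mass. -/
def Sam (μ : Measure ℂ) : Prop :=
  ∀ g : ℂ →ₗ[ℝ] ℂ, LinearMap.det g = 1 → Tendsto (fun R => El μ g R / N μ R) atTop (𝓝 1)

theorem exists_pq {l : ℝ} (hl : 1 < l) : ∃ p q : ℝ, 0 ≤ p ∧ 0 ≤ q ∧ p - q = l⁻¹ ∧ p + q = l ∧
    p ^ 2 - q ^ 2 = 1 := by
  have h0 : 0 < l := one_pos.trans hl
  refine ⟨(l + l⁻¹) / 2, (l - l⁻¹) / 2, by positivity, ?_, by ring, by ring, by field_simp; ring⟩
  linarith [inv_lt_one_of_one_lt₀ hl]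

theorem el_sub {a b : ℂ} {l : ℝ} (hl : 0 < l) (h : ‖a‖ - ‖b‖ = l⁻¹) (R : ℝ) :
    {z | ‖su a b z‖ ≤ R} ⊆ closedBall 0 (l * R) := fun z hz => by
  have := (su_le a b z).1.trans hz
  rwa [h, inv_mul_le_iff₀ hl, ← mem_closedBall_zero_iff] at this

theorem polar_circle (z : ℂ) : ∃ u : Circle, z = ‖z‖ * u :=
  ⟨Circle.exp (Complex.arg z), by rw [Circle.coe_exp, Complex.norm_mul_exp_arg_mul_I]⟩

theorem cover {l : ℝ} (hl : 0 < l) : ∃ t : Finset (ℂ →ₗ[ℝ] ℂ), (∀ g ∈ t, LinearMap.det g = 1 ∧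
    ∀ R, {z | ‖g z‖ ≤ R} ⊆ closedBall 0 ((l + 1) * R)) ∧
      ∀ z : ℂ, ‖z‖ ≤ l → ∃ g ∈ t, ‖g z‖ ≤ 1 := by
  classical
  obtain ⟨p, q, p0, q0, e1, -, e3⟩ := exists_pq (l := l + 1) (by linarith)
  have nq : ∀ u : Circle, ‖-(q : ℂ) * u ^ 2‖ = q := fun u => by
    rw [norm_mul, norm_pow, Circle.norm_coe]; simp [q0]
  have np : ‖(p : ℂ)‖ = p := by simp [p0]
  obtain ⟨t, ht⟩ := (isCompact_closedBall (0 : ℂ) l).elim_finite_subcover
    (fun u : Circle => {z | ‖su p (-q * u ^ 2) z‖ < 1})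
    (fun u => isOpen_lt (su_cont _ _).norm continuous_const) fun z hz => by
      obtain ⟨u, hu⟩ := polar_circle z
      refine mem_iUnion.2 ⟨u, ?_⟩
      have : su p (-q * u ^ 2) z = ((p - q : ℝ) : ℂ) * z := by
        rw [su_apply, hu, map_mul, Complex.conj_ofReal, ← Circle.coe_inv_eq_conj, Circle.coe_inv]
        push_cast
        field_simp
        ring
      rw [mem_ofPred_eq, this, e1, norm_mul, Complex.norm_real,
        Real.norm_of_nonneg (by positivity), inv_mul_lt_iff₀ (by positivity)]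
      linarith [mem_closedBall_zero_iff.1 hz]
  refine ⟨t.image fun u : Circle => su p (-q * u ^ 2), fun g hg => ?_, fun z hz => ?_⟩
  · obtain ⟨u, -, rfl⟩ := Finset.mem_image.1 hg
    exact ⟨by rw [det_su, nq, np, e3], el_sub (by positivity) (by rw [nq, np, e1])⟩
  · obtain ⟨u, hu, h⟩ := mem_iUnion₂.1 (ht (mem_closedBall_zero_iff.2 hz))
    exact ⟨_, Finset.mem_image_of_mem _ hu, le_of_lt h⟩

variable {μ : Measure ℂ} [IsFiniteMeasureOnCompacts μ]

theorem Sam.pot (hμ : μ ≠ 0) (S : Sam μ) {l : ℝ} (hl : 0 < l) :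
    ∃ C : ℝ, 0 < C ∧ ∀ᶠ R in atTop, N μ (l * R) ≤ C * N μ R := by
  obtain ⟨t, h1, h2⟩ := cover hl
  refine ⟨t.card * 2 + 1, by positivity, ?_⟩
  have ev : ∀ᶠ R in atTop, ∀ g ∈ t, El μ g R / N μ R < 2 :=
    (t.eventually_all).2 fun g hg => (S g (h1 g hg).1).eventually (gt_mem_nhds one_lt_two)
  filter_upwards [ev, N_pos μ hμ, eventually_gt_atTop 0] with R a1 a2 hR
  calc N μ (l * R) ≤ μ.real (⋃ g ∈ t, {z | ‖g z‖ ≤ R}) := by
        refine measureReal_mono (fun z hz => ?_) ((measure_mono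
          (iUnion₂_subset fun g hg => (h1 g hg).2 R)).trans_lt
          (isCompact_closedBall _ _).measure_lt_top).ne
        have n1 : ∀ w : ℂ, ‖R⁻¹ • w‖ = R⁻¹ * ‖w‖ := fun w => by
          rw [norm_smul, Real.norm_of_nonneg (by positivity)]
        obtain ⟨g, hg, h⟩ := h2 (R⁻¹ • z) (by
          rw [n1, inv_mul_le_iff₀ hR, mul_comm]
          exact mem_closedBall_zero_iff.1 hz)
        rw [map_smul, n1, inv_mul_le_iff₀ hR, mul_one] at h
        exact mem_iUnion₂.2 ⟨g, hg, h⟩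
    _ ≤ ∑ g ∈ t, El μ g R := measureReal_biUnion_finset_le _ _
    _ ≤ t.card • (2 * N μ R) :=
        Finset.sum_le_card_nsmul _ _ _ fun u hu => ((div_lt_iff₀ a2).1 (a1 u hu)).le
    _ ≤ _ := by rw [nsmul_eq_mul]; linarith

section

variable [MeasurableSpace Circle] [BorelSpace Circle] (ν : Measure Circle)
  [IsProbabilityMeasure ν] [ν.IsHaarMeasure]

theorem meas_el (μ : Measure ℂ) [IsFiniteMeasureOnCompacts μ] (a b : ℂ) (R : ℝ) :
    MeasurableSet {x : Circle × ℂ | ‖su (a * x.1) (b * conj (x.1 : ℂ)) x.2‖ ≤ R} :=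
  (isClosed_le (by simp only [su_apply]; fun_prop) continuous_const).measurableSet

theorem fub (μ : Measure ℂ) [IsFiniteMeasureOnCompacts μ] {a b : ℂ} {l : ℝ} (hl : 0 < l)
    (h : ‖a‖ - ‖b‖ = l⁻¹) (R : ℝ) :
    ∫ u : Circle, El μ (su (a * u) (b * conj (u : ℂ))) R ∂ν =
      ∫ u : Circle, N μ (R / ‖su a b u‖) ∂ν := by
  have pos : ∀ u : Circle, 0 < ‖su a b u‖ := fun u =>
    lt_of_lt_of_le (by simp [h, hl]) (su_le a b u).1
  have m1 := meas_el μ a b R
  have c : Continuous fun x : Circle × ℂ => ‖su a b x.1‖ := by simp only [su_apply]; fun_prop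
  have m2 : MeasurableSet {x : Circle × ℂ | ‖x.2‖ ≤ R / ‖su a b x.1‖} :=
    (isClosed_le continuous_snd.norm (continuous_const.div c fun x => (pos x.1).ne')).measurableSet
  have e : ∫⁻ u : Circle, μ {z | ‖su (a * u) (b * conj (u : ℂ)) z‖ ≤ R} ∂ν =
      ∫⁻ u : Circle, μ {z | ‖z‖ ≤ R / ‖su a b u‖} ∂ν := by
    refine (Measure.prod_apply m1).symm.trans (Eq.trans ?_ (Measure.prod_apply m2))
    rw [Measure.prod_apply_symm m1, Measure.prod_apply_symm m2]
    refine lintegral_congr fun z => ?_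
    obtain ⟨w, hw⟩ := polar_circle z
    refine Eq.trans (congrArg ν (Set.ext fun u => ?_)) (measure_preimage_mul_right ν w _)
    have : su (a * u) (b * conj (u : ℂ)) z = (‖z‖ : ℂ) * su a b (u * w : Circle) := by
      conv_lhs => rw [hw]
      simp only [su_apply, Circle.coe_mul, map_mul, Complex.conj_ofReal]
      ring
    simp only [mem_preimage, mem_ofPred_eq, this, le_div_iff₀ (pos _), norm_mul, Complex.norm_real,
      norm_norm]
  have cb : ∀ r : ℝ, {z : ℂ | ‖z‖ ≤ r} = closedBall 0 r := fun r => by ext; simp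
  have f1 := integral_toReal (μ := ν)
    (f := fun u : Circle => μ {z | ‖su (a * u) (b * conj (u : ℂ)) z‖ ≤ R})
    (measurable_measure_prodMk_left m1).aemeasurable
    (.of_forall fun u => (measure_mono (el_sub (a := a * u) (b := b * conj (u : ℂ)) hl
      (by simpa only [norm_mul, Complex.norm_conj, Circle.norm_coe, mul_one] using h) R)).trans_lt (isCompact_closedBall _ _).measure_lt_top)
  have f2 := integral_toReal (μ := ν) (f := fun u : Circle => μ {z | ‖z‖ ≤ R / ‖su a b u‖})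
    (measurable_measure_prodMk_left m2).aemeasurable
    (.of_forall fun u => by rw [cb]; exact (isCompact_closedBall _ _).measure_lt_top)
  rw [← e, ← f1] at f2
  simp only [cb] at f2
  exact f2.symm

theorem Sam.avg (hμ : μ ≠ 0) (S : Sam μ) : Avg ν fun s => N μ √s := by
  intro δ hδ
  have d1 : 1 < √(1 + δ) := by rw [lt_sqrt zero_le_one]; linarith
  have d0 := one_pos.trans d1
  obtain ⟨p, q, p0, q0, e1, e2, e3⟩ := exists_pq d1
  have nq : ‖(q : ℂ)‖ = q := by simp [q0]
  have np : ‖(p : ℂ)‖ = p := by simp [p0]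
  have h : ‖(p : ℂ)‖ - ‖(q : ℂ)‖ = (√(1 + δ))⁻¹ := by rw [np, nq, e1]
  have bd : ∀ u : Circle, (√(1 + δ))⁻¹ ≤ ‖su p q u‖ ∧ ‖su p q u‖ ≤ √(1 + δ) := fun u => by
    simpa only [np, nq, e1, e2, Circle.norm_coe, mul_one] using su_le p q u
  have pos : ∀ u : Circle, 0 < ‖su p q u‖ := fun u => (inv_pos.2 d0).trans_le (bd u).1
  have dt1 : ∀ u : Circle, LinearMap.det (su (p * u) (q * conj (u : ℂ))) = 1 := fun u => by
    simp only [det_su, norm_mul, Complex.norm_conj, Circle.norm_coe, mul_one, np, nq, e3]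
  have sq : √(1 + δ) ^ 2 = 1 + δ := sq_sqrt (by linarith)
  have c : Continuous fun u : Circle => (‖su p q u‖ ^ 2)⁻¹ :=
    (((su_cont _ _).comp (by fun_prop)).norm.pow 2).inv₀ fun u => (pow_pos (pos u) 2).ne'
  have ii : ∀ {f : Circle → ℝ}, Continuous f → Integrable f ν := fun hf =>
    hf.integrable_of_hasCompactSupport (.of_compactSpace _)
  have m1 : ∫ u : Circle, (‖su p q u‖ ^ 2)⁻¹ ∂ν = 1 := by
    have := fub ν volume d0 h 1
    have e : ∀ u : Circle, El volume (su (p * u) (q * conj (u : ℂ))) 1 = π := fun u => by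
      have := Measure.addHaar_preimage_linearMap (volume : Measure ℂ)
        ((dt1 u).trans_ne one_ne_zero) (closedBall 0 1)
      rw [dt1 u, show _ ⁻¹' _ = {z | ‖su (p * u) (q * conj (u : ℂ)) z‖ ≤ 1} by ext; simp] at this
      simp [El, Measure.real, this]
    simp only [N_vol (div_nonneg zero_le_one (norm_nonneg _))] at this
    simp only [e, integral_const_mul,
      integral_const, probReal_univ, one_smul, one_div, inv_pow] at this
    exact (mul_eq_left₀ pi_pos.ne').1 this.symm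
  refine ⟨_, c.measurable, fun u => ⟨?_, ?_⟩, m1, ?_, ?_⟩
  · exact inv_anti₀ (pow_pos (pos u) 2) (sq ▸ pow_le_pow_left₀ (norm_nonneg _) (bd u).2 2)
  · refine inv_le_of_inv_le₀ (by linarith) ?_
    simpa [sq] using pow_le_pow_left₀ (by positivity) (bd u).1 2
  · have := integral_pos_of_integrable_nonneg_nonzero (x := (1 : Circle))
      ((c.sub continuous_const (g := fun _ => 1)).pow 2) (ii ((c.sub continuous_const).pow 2))
      (fun u => sq_nonneg _) (by
        have : ‖su p q 1‖ = √(1 + δ) := by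
          rw [su_apply, map_one, mul_one, mul_one, ← Complex.ofReal_add, e2, Complex.norm_real,
            Real.norm_of_nonneg d0.le]
        simp only [Circle.coe_one, this, sq, Pi.pow_apply, Pi.sub_apply]
        exact pow_ne_zero 2 (sub_neg.2 (inv_lt_one_of_one_lt₀ (by linarith))).ne)
    simp only [Pi.pow_apply, Pi.sub_apply, sub_sq, mul_one, one_pow] at this
    rw [integral_add (by exact ii ((c.pow 2).sub (continuous_const.mul c))) (integrable_const _),
      integral_sub (by exact ii (c.pow 2)) ((ii c).const_mul _), integral_const_mul, m1] at this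
    simp only [integral_const, probReal_univ, one_smul] at this
    linarith
  · obtain ⟨C, hC, hC'⟩ := S.pot hμ d0
    have lim := tendsto_integral_filter_of_dominated_convergence (μ := ν) (l := atTop)
      (F := fun R u => El μ (su (p * u) (q * conj (u : ℂ))) R / N μ R) (fun _ => C)
      (.of_forall fun R => ((measurable_measure_prodMk_left (ν := μ)
        (meas_el μ p q R)).ennreal_toReal.div_const _).aestronglyMeasurable) ?_
      (integrable_const _) (.of_forall fun u => S _ (dt1 u))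
    · simp only [integral_const, probReal_univ, one_smul] at lim
      refine (lim.comp tendsto_sqrt_atTop).congr fun s => ?_
      simp only [Function.comp, integral_div, fub ν μ d0 h]
      congr with u
      rw [sqrt_mul (by positivity), sqrt_inv, sqrt_sq (norm_nonneg _), div_eq_inv_mul]
    · filter_upwards [hC', N_pos μ hμ] with R a1 a2
      refine .of_forall fun u => ?_
      rw [Real.norm_of_nonneg (by exact div_nonneg measureReal_nonneg a2.le), div_le_iff₀ a2]
      exact (measureReal_mono (el_sub (a := p * u) (b := q * conj (u : ℂ)) d0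
        (by simpa only [norm_mul, Complex.norm_conj, Circle.norm_coe, mul_one] using h) R)
        (isCompact_closedBall _ _).measure_lt_top.ne).trans a1

end

theorem Sam.reg (hμ : μ ≠ 0) (S : Sam μ) {c : ℝ} (hc : 0 < c)
    (hl : ∀ᶠ R in atTop, c * R ≤ N μ R) : Reg μ := by
  intro a ha
  borelize Circle
  have : IsProbabilityMeasure (Measure.haarMeasure (⊤ : TopologicalSpace.PositiveCompacts Circle)) :=
    ⟨by simpa using Measure.haarMeasure_self (K₀ := (⊤ : TopologicalSpace.PositiveCompacts Circle))⟩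
  have := reg_of_avg (n := fun s => N μ √s) ((N_mono μ).comp fun _ _ => sqrt_le_sqrt)
    (fun _ => N_nonneg _ _) (fun l => ?_) (S.avg (Measure.haarMeasure ⊤) hμ) (pow_pos hc 2) ?_
    (pow_pos ha 2)
  · refine (this.comp (tendsto_pow_atTop two_ne_zero)).congr' ?_
    filter_upwards [eventually_ge_atTop 0] with R hR
    simp only [Function.comp, ← mul_pow, sqrt_sq hR, sqrt_sq (mul_nonneg ha.le hR)]
  · obtain ⟨C, hC, hC'⟩ := S.pot hμ (l := √(|l| + 1)) (by positivity)
    refine ⟨C, hC, ?_⟩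
    filter_upwards [tendsto_sqrt_atTop.eventually hC', eventually_ge_atTop 0] with s a1 a2
    refine (N_mono μ ?_).trans a1
    rw [← sqrt_mul (by positivity)]
    exact sqrt_le_sqrt (mul_le_mul_of_nonneg_right (by linarith [le_abs_self l]) a2)
  · filter_upwards [tendsto_sqrt_atTop.eventually hl, eventually_ge_atTop 0] with s a1 a2
    simpa [mul_pow, sq_sqrt a2] using pow_le_pow_left₀ (by positivity) a1 2

/-- The maps that do not change the asymptotic mass of ellipses. -/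
def Gd (μ : Measure ℂ) (g : ℂ →ₗ[ℝ] ℂ) : Prop :=
  LinearMap.det g = 1 ∧ ∀ h : ℂ →ₗ[ℝ] ℂ, LinearMap.det h = 1 → El μ (g ∘ₗ h) ~[atTop] El μ h

omit [IsFiniteMeasureOnCompacts μ]

theorem Gd.comp {f g : ℂ →ₗ[ℝ] ℂ} (F : Gd μ f) (G : Gd μ g) : Gd μ (f ∘ₗ g) :=
  ⟨by rw [LinearMap.det_comp, F.1, G.1, one_mul], fun h hh =>
    (F.2 (g ∘ₗ h) (by rw [LinearMap.det_comp, G.1, hh, one_mul])).trans (G.2 h hh)⟩

theorem gd_rot (x : ℝ) : Gd μ (su (Complex.exp (x * Complex.I)) 0) := by
  refine ⟨by simp [det_su], fun h _ => ?_⟩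
  have : El μ (su (Complex.exp (x * Complex.I)) 0 ∘ₗ h) = El μ h := by
    funext R
    simp [El, su_apply]
  rw [this]

theorem Gd.norm {p q p' q' : ℂ} (G : Gd μ (su p q)) (hp : ‖p'‖ = ‖p‖) (hq : ‖q'‖ = ‖q‖) :
    Gd μ (su p' q') := by
  have := ((gd_rot ((p'.arg - p.arg + (q'.arg - q.arg)) / 2)).comp G).comp
    (gd_rot ((p'.arg - p.arg - (q'.arg - q.arg)) / 2))
  simp only [su_comp, zero_mul, mul_zero, add_zero, zero_add, map_zero, ← Complex.exp_conj,
    map_mul, Complex.conj_ofReal, Complex.conj_I] at this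
  have e : ∀ {z z' a b : ℂ}, ‖z'‖ = ‖z‖ → a + b = (z'.arg - z.arg) * Complex.I →
      z' = Complex.exp a * z * Complex.exp b := by
    intro z z' a b h1 h2
    rw [mul_right_comm, ← Complex.exp_add, h2]
    conv_rhs => enter [2]; rw [← Complex.norm_mul_exp_arg_mul_I z]
    rw [mul_left_comm, ← Complex.exp_add, ← h1, ← add_mul, sub_add_cancel,
      Complex.norm_mul_exp_arg_mul_I]
  convert this using 2
  · exact e hp (by push_cast; ring)
  · exact e hq (by push_cast; ring)

theorem Gd.all {g : ℂ →ₗ[ℝ] ℂ} (G : Gd μ g) (hn : ∃ z, ‖g z‖ ≠ ‖z‖)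
    (h0 : ∀ᶠ R in atTop, N μ R ≠ 0) : Sam μ := by
  obtain ⟨p, q, rfl⟩ := eq_su g
  have hd := G.1
  rw [det_su] at hd
  have q0 : 0 < ‖q‖ := norm_pos_iff.2 fun h => by
    obtain ⟨z, hz⟩ := hn
    have : ‖p‖ = 1 := (pow_eq_one_iff_of_nonneg (norm_nonneg p) two_ne_zero).1 (by
      rw [h, _root_.norm_zero] at hd; linarith)
    simp [su_apply, h, this] at hz
  have step : ∀ p q p' q' : ℂ, Gd μ (su p q) → 0 < ‖q‖ → ‖q'‖ ≤ 2 * ‖q‖ →
      ‖p'‖ ^ 2 - ‖q'‖ ^ 2 = 1 → Gd μ (su p' q') := by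
    intro p q p' q' G q0 h1 h2
    have hd := G.1
    rw [det_su] at hd
    have p1 : 1 ≤ ‖p‖ := by nlinarith [norm_nonneg p]
    set r := ‖q'‖ / (2 * ‖p‖ * ‖q‖) with hr
    have r0 : 0 ≤ r := by positivity
    have r1 : r ≤ 1 := (div_le_one (by positivity)).2 (by nlinarith)
    have nb : ‖Complex.exp (arccos r * Complex.I)‖ = 1 := Complex.norm_exp_ofReal_mul_I _
    have re : (Complex.exp (arccos r * Complex.I)).re = r := by
      rw [Complex.exp_ofReal_mul_I_re, cos_arccos (by linarith) r1]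
    generalize Complex.exp (arccos r * Complex.I) = β at nb re
    have G2 := (G.norm (p' := (‖p‖ : ℝ)) (q' := (‖q‖ : ℝ)) (by simp) (by simp)).comp
      (G.norm (p' := β * (‖p‖ : ℝ)) (q' := β * (‖q‖ : ℝ)) (by simp [nb]) (by simp [nb]))
    rw [su_comp] at G2
    have nq : ‖q'‖ = ‖((‖p‖ : ℝ) : ℂ) * (β * (‖q‖ : ℝ)) + (‖q‖ : ℝ) * conj (β * (‖p‖ : ℝ))‖ := by
      rw [map_mul, Complex.conj_ofReal, show ((‖p‖ : ℝ) : ℂ) * (β * (‖q‖ : ℝ)) +
        (‖q‖ : ℝ) * (conj β * (‖p‖ : ℝ)) = (‖p‖ * ‖q‖ : ℝ) * (β + conj β) by push_cast; ring,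
        Complex.add_conj, re, ← Complex.ofReal_mul, Complex.norm_real,
        Real.norm_of_nonneg (by positivity), hr]
      field_simp
    refine G2.norm ?_ nq
    have := G2.1
    rw [det_su, ← nq] at this
    exact (pow_left_inj₀ (norm_nonneg _) (norm_nonneg _) two_ne_zero).1 (by linarith)
  have all : ∀ k : ℕ, ∀ p' q' : ℂ, ‖q'‖ ≤ 2 * (2 ^ k * ‖q‖) → ‖p'‖ ^ 2 - ‖q'‖ ^ 2 = 1 →
      Gd μ (su p' q') := by
    intro k
    induction k with
    | zero => exact fun p' q' h => step p q p' q' G q0 (by simpa using h)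
    | succ k ih =>
      intro p' q' h
      have e : ‖((2 * (2 ^ k * ‖q‖) : ℝ) : ℂ)‖ = 2 * (2 ^ k * ‖q‖) := by
        rw [Complex.norm_real, Real.norm_of_nonneg (by positivity)]
      refine step _ _ p' q' (ih (√(1 + (2 * (2 ^ k * ‖q‖)) ^ 2) : ℝ) _ e.le ?_)
        (by rw [e]; positivity) (by rw [pow_succ] at h; rw [e]; linarith)
      rw [e, Complex.norm_real, Real.norm_of_nonneg (sqrt_nonneg _), sq_sqrt (by positivity)]
      ring
  intro g hg
  obtain ⟨p', q', rfl⟩ := eq_su g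
  obtain ⟨k, hk⟩ := pow_unbounded_of_one_lt (‖q'‖ / ‖q‖) (one_lt_two : (1 : ℝ) < 2)
  rw [div_lt_iff₀ q0] at hk
  have := (all k p' q' (by linarith [norm_nonneg q']) (det_su p' q' ▸ hg)).2 LinearMap.id (by simp)
  rw [show El μ LinearMap.id = N μ from funext fun R => by simp [El, N, closedBall]] at this
  exact (isEquivalent_iff_tendsto_one h0).1 this

end Pool.Agent.MP_16ecd2_an.H44
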