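import Pool.Agent.MP_16ecd2_an.H44.Surf

/-!
The linear action on surfaces, counting, equidistribution of directions, and the reversal of
saddle connections.
-/

namespace Pool.Agent.MP_16ecd2_an.H44

open Set Filter Topology Real

theorem dt_map (g : ℂ →ₗ[ℝ] ℂ) (a b : ℂ) : dt (g a) (g b) = LinearMap.det g * dt a b := by
  have e : ∀ z : ℂ, g z = z.re • g 1 + z.im • g Complex.I := fun z => by
    rw [← map_smul, ← map_smul, ← map_add]
    simp
  rw [← LinearMap.det_toMatrix Complex.basisOneI, Matrix.det_fin_two, e a, e b]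
  simp [LinearMap.toMatrix_apply, dt]
  ring

namespace Surf

variable {E : Type} (X : Surf E)

/-- The surface `g X` for a linear map `g` of determinant one: same gluing, sides moved by `g`. -/
noncomputable def act (g : ℂ →ₗ[ℝ] ℂ) (hg : LinearMap.det g = 1) : Surf E where
  nx := X.nx
  op := X.op
  vec e := g (X.vec e)
  nx3 := X.nx3
  op2 := X.op2
  closed e := by rw [← map_add, ← map_add, X.closed, map_zero]
  pos e := by rw [dt_map, hg, one_mul]; exact X.pos e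
  glue e := by rw [X.glue, map_neg]

/-- The saddle connections of length at most `R`. -/
noncomputable def ball [Fintype E] (R : ℝ) : Finset (E × ℂ) := (X.finite_sc R).toFinset

/-- Their number `N(R)`. -/
noncomputable def cnt [Fintype E] (R : ℝ) : ℝ := (X.ball R).card

/-- The measures `ν_R` converge weakly to the uniform probability measure on the circle. -/
def Equi [Fintype E] : Prop :=
  ∀ f : Real.Angle → ℝ, Continuous f →
    Tendsto (fun R => (∑ c ∈ X.ball R, f (Complex.arg c.2)) / X.cnt R) atTop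
      (𝓝 ((2 * π)⁻¹ * ∫ θ in (0 : ℝ)..2 * π, f θ))

theorem mem_act_of {Y : Surf E} {g : ℂ →ₗ[ℝ] ℂ} (hg : LinearMap.det g = 1) (h1 : Y.nx = X.nx)
    (h2 : Y.op = X.op) (h3 : ∀ e, Y.vec e = g (X.vec e)) {c : E × ℂ} (hc : c ∈ X.SC) :
    (c.1, g c.2) ∈ Y.SC := by
  have ap : ∀ s : E × ℂ, Y.apex (s.1, g s.2) = g (X.apex s) := fun s => by
    simp [apex, h1, h3]
  have d : ∀ a b, dt (g a) (g b) = dt a b := fun a b => by rw [dt_map, hg, one_mul]
  have a0 : Y.apex (c.1, 0) = g (X.apex (c.1, 0)) := by simpa using ap (c.1, 0)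
  rcases hc with h | ⟨k1, k2, s, k3, k4⟩
  · exact Or.inl (by rw [h3, h])
  · refine Or.inr ⟨by rwa [h3, d], by rwa [a0, d], (s.1, g s.2), ?_, by rw [ap, k4]⟩
    rw [a0, h1, h2]
    refine Relation.ReflTransGen.lift (fun s : E × ℂ => (s.1, g s.2)) (fun s t h => ?_) _ _ k3
    rcases h with ⟨h, rfl⟩ | ⟨h, rfl⟩
    · exact Or.inl ⟨by rwa [ap, d], by rw [ap, h1, h2]⟩
    · exact Or.inr ⟨by rwa [ap, d], by rw [h1, h2]⟩

theorem mem_act (g : ℂ ≃ₗ[ℝ] ℂ) (hg : LinearMap.det (g : ℂ →ₗ[ℝ] ℂ) = 1) (c : E × ℂ) :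
    c ∈ X.SC ↔ (c.1, g c.2) ∈ (X.act g hg).SC := by
  refine ⟨X.mem_act_of (Y := X.act g hg) hg rfl rfl fun _ => rfl, fun h => ?_⟩
  have hs : LinearMap.det (g.symm : ℂ →ₗ[ℝ] ℂ) = 1 := by
    rw [LinearEquiv.det_coe_symm, hg, inv_one]
  simpa using (X.act g hg).mem_act_of (Y := X) hs rfl rfl (fun e => by simp [act]) h

theorem ne_zero {c : E × ℂ} (hc : c ∈ X.SC) : c.2 ≠ 0 := by
  intro h0
  rcases hc with h | ⟨h, -⟩
  · have := X.pos c.1
    rw [← h, h0] at this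
    simp [dt] at this
  · simp [h0, dt] at h

/-- The same side seen from the other end of the segment. -/
def rev (v : ℂ) (s : E × ℂ) : E × ℂ := (X.op s.1, s.2 + X.vec s.1 - v)

variable {X}

theorem Step.rev {v : ℂ} {s t : E × ℂ} (h : X.Step v s t) (hs : X.Inv v s) :
    X.Step (-v) (X.rev v t) (X.rev v s) := by
  obtain ⟨h1, h2⟩ := hs
  rcases h with ⟨-, rfl⟩ | ⟨-, rfl⟩
  · refine Or.inr ⟨?_, Prod.ext ?_ ?_⟩
    · simp only [Surf.rev, apex, X.op2, X.glue, X.vec_nn]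
      simp only [dt, Complex.add_re, Complex.add_im, Complex.sub_re, Complex.sub_im,
        Complex.neg_re, Complex.neg_im] at h1 ⊢
      linarith
    · simp only [Surf.rev, X.op2, X.nx3]
    · simp only [Surf.rev, apex, X.glue]
      ring
  · refine Or.inl ⟨?_, Prod.ext ?_ ?_⟩
    · simp only [Surf.rev, apex, X.op2, X.glue, X.nx3]
      simp only [dt, Complex.add_re, Complex.add_im, Complex.sub_re, Complex.sub_im,
        Complex.neg_re, Complex.neg_im] at h2 ⊢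
      linarith
    · simp only [Surf.rev, X.op2, X.nx3]
    · simp only [Surf.rev, apex, X.op2, X.glue, X.nx3]
      ring

theorem reach_rev {v : ℂ} {s t : E × ℂ} (h : Relation.ReflTransGen (X.Step v) s t)
    (hs : X.Inv v s) : X.Inv v t ∧ Relation.ReflTransGen (X.Step (-v)) (X.rev v t) (X.rev v s) := by
  induction h with
  | refl => exact ⟨hs, .refl⟩
  | tail _ h ih => exact ⟨h.inv ih.1, .head (h.rev ih.1) ih.2⟩

theorem end_unique {v : ℂ} {a s t : E × ℂ} (hs : Relation.ReflTransGen (X.Step v) a s)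
    (ht : Relation.ReflTransGen (X.Step v) a t) (es : X.apex s = v) (et : X.apex t = v) :
    s = t := by
  have stop : ∀ {s t : E × ℂ}, X.apex s = v → Relation.ReflTransGen (X.Step v) s t → s = t := by
    intro s t e h
    rcases h.cases_head with h | ⟨u, ⟨h, -⟩ | ⟨h, -⟩, -⟩
    · exact h
    all_goals simp [e, dt, mul_comm] at h
  refine (Relation.ReflTransGen.total_of_right_unique ?_ hs ht).elim (stop es)
    fun h => (stop et h).symm
  rintro x y z (⟨h, rfl⟩ | ⟨h, rfl⟩) (⟨k, rfl⟩ | ⟨k, rfl⟩)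
  exacts [rfl, absurd h k.not_gt, absurd h k.not_gt, rfl]

variable (X)

/-- `c'` is `c` with the opposite orientation. -/
def Rv (c c' : E × ℂ) : Prop :=
  c'.2 = -c.2 ∧ ((c.2 = X.vec c.1 ∧ c'.1 = X.op c.1) ∨
    (0 < dt (X.vec c.1) c.2 ∧ 0 < dt c.2 (X.apex (c.1, 0)) ∧
      ∃ s, Relation.ReflTransGen (X.Step c.2) (X.op (X.nx c.1), X.apex (c.1, 0)) s ∧
        X.apex s = c.2 ∧ c'.1 = X.nx (X.nx s.1)))

variable {X}

theorem rv_iff {c : E × ℂ} : c ∈ X.SC ↔ ∃ c', X.Rv c c' := by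
  constructor
  · rintro (h | ⟨h1, h2, s, h3, h4⟩)
    · exact ⟨(X.op c.1, -c.2), rfl, Or.inl ⟨h, rfl⟩⟩
    · exact ⟨(X.nx (X.nx s.1), -c.2), rfl, Or.inr ⟨h1, h2, s, h3, h4, rfl⟩⟩
  · rintro ⟨c', -, ⟨h, -⟩ | ⟨h1, h2, s, h3, h4, -⟩⟩
    · exact Or.inl h
    · exact Or.inr ⟨h1, h2, s, h3, h4⟩

theorem Rv.unique {c a b : E × ℂ} (ha : X.Rv c a) (hb : X.Rv c b) : a = b := by
  refine Prod.ext ?_ (ha.1.trans hb.1.symm)
  rcases ha.2 with ⟨h, e⟩ | ⟨h, -, s, h3, h4, e⟩ <;> rcases hb.2 with ⟨k, f⟩ | ⟨k, -, t, k3, k4, f⟩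
  · rw [e, f]
  · simp [h, dt, mul_comm] at k
  · simp [k, dt, mul_comm] at h
  · rw [e, f, end_unique h3 k3 h4 k4]

theorem Rv.symm {c a : E × ℂ} (h : X.Rv c a) : X.Rv a c := by
  obtain ⟨e, v⟩ := c
  obtain ⟨e', v'⟩ := a
  obtain ⟨rfl, ⟨h, rfl⟩ | ⟨h1, h2, s, h3, h4, rfl⟩⟩ := h
  · exact ⟨(neg_neg _).symm, Or.inl ⟨by rw [X.glue, ← h], (X.op2 _).symm⟩⟩
  · dsimp only at h1 h2 h3 h4
    obtain ⟨⟨i1, i2⟩, r⟩ := reach_rev h3 (inv_start h1 h2)
    have p : X.vec (X.nx (X.nx s.1)) = s.2 - v := by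
      rw [X.vec_nn, ← h4, apex]; ring
    have q : X.apex (X.nx (X.nx s.1), 0) = s.2 + X.vec s.1 - v := by
      simp only [apex, p, X.nx3]; ring
    refine ⟨(neg_neg _).symm, Or.inr ⟨?_, ?_, X.rev v (X.op (X.nx e), X.apex (e, 0)), ?_, ?_,
      (X.nx3 e).symm.trans ?_⟩⟩
    · simp only [p, dt, Complex.sub_re, Complex.sub_im, Complex.neg_re, Complex.neg_im] at i1 ⊢
      linarith
    · simp only [q, dt, Complex.add_re, Complex.add_im, Complex.sub_re, Complex.sub_im,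
        Complex.neg_re, Complex.neg_im] at i2 ⊢
      linarith
    · rw [q, X.nx3]
      exact r
    · simp only [Surf.rev, apex, X.op2, X.glue, X.vec_nn]
      ring
    · simp only [Surf.rev, X.op2]

variable (X)

theorem exists_rev : ∃ σ : X.SC ≃ X.SC, ∀ c, (σ c).1.2 = -c.1.2 := by
  choose f hf using fun c : X.SC => rv_iff.1 c.2
  let σ : X.SC → X.SC := fun c => ⟨f c, rv_iff.2 ⟨_, (hf c).symm⟩⟩
  exact ⟨Function.Involutive.toPerm σ fun c => Subtype.ext ((hf (σ c)).unique (hf c).symm),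
    fun c => (hf c).1⟩

end Surf

end Pool.Agent.MP_16ecd2_an.H44
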