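import Pool.Agent.MP_16ecd2_an.H44.Defs

/-!
The number of saddle connections grows at least linearly.
-/

namespace Pool.Agent.MP_16ecd2_an.H44

open Set Filter Topology Real

theorem pluck (a b c d : ℂ) : dt a b * dt c d = dt a c * dt b d - dt a d * dt b c := by
  unfold dt; ring

theorem dt_swap (a b : ℂ) : dt a b = -dt b a := by unfold dt; ring

theorem dt_neg (a b : ℂ) : dt a (-b) = -dt a b := by simp [dt]; ring

theorem cone {u w v T : ℂ} (h : 0 < dt u w) (h1 : 0 ≤ dt u v) (h2 : 0 ≤ dt v w) (hv : v ≠ 0)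
    (k1 : 0 < dt u T) (k2 : 0 < dt w T) : 0 < dt v T := by
  have e : dt v T * dt u w = dt v w * dt u T + dt u v * dt w T := by unfold dt; ring
  refine pos_of_mul_pos_left (e ▸ ?_) h.le
  rcases h1.eq_or_lt with h1 | h1
  · rcases h2.eq_or_lt with h2 | h2
    · refine absurd (Complex.ext ?_ ?_) hv
      · refine (mul_eq_zero.1 (?_ : v.re * dt u w = 0)).resolve_right h.ne'
        unfold dt at *
        linear_combination -u.re * h2 - w.re * h1
      · refine (mul_eq_zero.1 (?_ : v.im * dt u w = 0)).resolve_right h.ne'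
        unfold dt at *
        linear_combination -u.im * h2 - w.im * h1
    · rw [← h1]; simpa using mul_pos h2 k1
  · positivity

theorem cone' {u w v T : ℂ} (h : 0 < dt u w) (h1 : 0 ≤ dt u v) (h2 : 0 ≤ dt v w) (hv : v ≠ 0)
    (k1 : dt u T < 0) (k2 : dt w T < 0) : dt v T < 0 := by
  have := cone (T := -T) h h1 h2 hv (by rw [dt_neg]; linarith) (by rw [dt_neg]; linarith)
  rw [dt_neg] at this
  linarith

namespace Surf

variable {E : Type} {X : Surf E}

theorem Step.far {v : ℂ} {s t : E × ℂ} (h : X.Step v s t) (hs : X.Inv v s)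
    (hf : 0 ≤ dt (X.vec s.1) s.2) : 0 ≤ dt (X.vec t.1) t.2 := by
  have hA := X.pos s.1
  have d := hs.den.1
  obtain ⟨i1, i2⟩ := hs
  refine nonneg_of_mul_nonneg_left ?_ d
  rcases h with ⟨h, rfl⟩ | ⟨h, rfl⟩
  · have : dt (X.vec (X.op (X.nx s.1))) (X.apex s) * dt (X.vec s.1) v =
        -dt v (s.2 + X.vec s.1) * (dt (X.vec s.1) s.2 + dt (X.vec s.1) (X.vec (X.nx s.1))) +
          dt v (X.apex s) * dt (X.vec s.1) s.2 := by
      simp only [X.glue, apex, dt, Complex.add_re, Complex.add_im, Complex.neg_re, Complex.neg_im]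
      ring
    rw [this]
    have := neg_pos.2 i2
    positivity
  · have : dt (X.vec (X.op (X.nx (X.nx s.1)))) s.2 * dt (X.vec s.1) v =
        dt v s.2 * (dt (X.vec s.1) s.2 + dt (X.vec s.1) (X.vec (X.nx s.1))) +
          -dt v (X.apex s) * dt (X.vec s.1) s.2 := by
      simp only [X.glue, X.vec_nn, apex, dt, Complex.add_re, Complex.add_im, Complex.neg_re,
        Complex.neg_im]
      ring
    rw [this]
    have := neg_pos.2 h
    positivity

theorem sep [Fintype E] {D : ℝ} (hD : ∀ f, ‖X.vec f‖ ≤ D) (e : E) {u w : ℂ} (h : 0 < dt u w)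
    (u1 : 0 < dt (X.vec e) u) (u2 : 0 < dt u (X.apex (e, 0))) (w1 : 0 < dt (X.vec e) w)
    (w2 : 0 < dt w (X.apex (e, 0))) : ∃ v, (e, v) ∈ X.SC ∧ 0 ≤ dt u v ∧ 0 ≤ dt v w ∧
      ‖v‖ ≤ D * ‖w‖ / dt u w * ‖u‖ + 3 * D := by
  obtain ⟨K, hK0, hK⟩ : ∃ K : ℝ, 0 ≤ K ∧ ∀ e f, 2 * Fintype.card E * dt (X.vec f) u ≤
      K * dt (X.vec e) (X.vec (X.nx e)) := by
    obtain ⟨K, hK⟩ := (finite_range fun p : E × E =>
      2 * Fintype.card E * dt (X.vec p.2) u / dt (X.vec p.1) (X.vec (X.nx p.1))).bddAbove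
    refine ⟨max K 0, le_max_right _ _, fun e f => ?_⟩
    rw [← div_le_iff₀ (X.pos e)]
    exact (hK ⟨(e, f), rfl⟩).trans (le_max_left _ _)
  have al : ∀ s, X.Inv u s → X.Inv w s →
      dt (X.vec s.1) s.2 / dt (X.vec s.1) u ≤ D * ‖w‖ / dt u w := by
    intro s i j
    refine le_trans ?_ (div_le_div_of_nonneg_right ((dt_le (X.vec s.1) w).trans
      (mul_le_mul_of_nonneg_right (hD _) (norm_nonneg _))) h.le)
    rw [div_le_div_iff₀ i.den.1 h, pluck, dt_swap s.2 w, dt_swap s.2 u]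
    nlinarith [mul_pos i.den.1 j.1, mul_lt_mul_of_pos_left ((div_lt_one i.den.1).1 i.den.2.2) j.den.1]
  have key : ∀ n : ℕ, ∀ s, X.Inv u s → X.Inv w s → 0 ≤ dt (X.vec s.1) s.2 →
      (∀ v, 0 ≤ dt u v → 0 ≤ dt v w → v ≠ 0 →
        Relation.ReflTransGen (X.Step v) (X.op (X.nx e), X.apex (e, 0)) s) →
      K * (D * ‖w‖ / dt u w) + Fintype.card E < X.pot K u s + n →
      ∃ v, (e, v) ∈ X.SC ∧ 0 ≤ dt u v ∧ 0 ≤ dt v w ∧ ‖v‖ ≤ D * ‖w‖ / dt u w * ‖u‖ + 3 * D := by
    intro n
    induction n with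
    | zero =>
      intro s i j _ _ hn
      have b := X.rk_bd u s.1
      unfold pot at hn
      nlinarith [mul_le_mul_of_nonneg_left (al s i j) hK0, mul_nonneg b.1 i.den.2.1.le]
    | succ n ih =>
      intro s i j f r hn
      have hT : 0 < dt (X.vec s.1) (X.apex s) := by
        have := X.pos s.1
        simp only [apex, dt, Complex.add_re, Complex.add_im] at *
        linarith
      have pl := pluck (X.vec s.1) u w (X.apex s)
      have go : ∀ t, X.Step u s t → X.Step w s t →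
          (∀ v, 0 ≤ dt u v → 0 ≤ dt v w → v ≠ 0 → X.Step v s t) → _ := fun t a b c =>
        ih t (a.inv i) (b.inv j) (a.far i f) (fun v x y z => (r v x y z).tail (c v x y z))
          (by have := pot_step hK a i; push_cast at hn; linarith)
      rcases lt_or_ge (dt u (X.apex s)) 0 with a | a
      · have b : dt w (X.apex s) < 0 := neg_of_mul_neg_left (by
          nlinarith [mul_pos hT h, mul_pos j.den.1 (neg_pos.2 a)]) i.den.1.le
        exact go _ (Or.inr ⟨a, rfl⟩) (Or.inr ⟨b, rfl⟩) fun v x y z =>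
          Or.inr ⟨cone' h x y z a b, rfl⟩
      rcases lt_or_ge 0 (dt w (X.apex s)) with b | b
      · have a : 0 < dt u (X.apex s) := pos_of_mul_pos_right (by
          nlinarith [mul_pos hT h, mul_pos i.den.1 b]) j.den.1.le
        exact go _ (Or.inl ⟨a, rfl⟩) (Or.inl ⟨b, rfl⟩) fun v x y z =>
          Or.inl ⟨cone h x y z a b, rfl⟩
      have b' : 0 ≤ dt (X.apex s) w := by rw [dt_swap]; linarith
      have z : X.apex s ≠ 0 := fun z => by simp [z, dt] at hT
      refine ⟨_, Or.inr ⟨?_, cone h a b' z u2 w2, s, r _ a b' z, rfl⟩, a, b', ?_⟩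
      · rw [dt_swap]
        exact neg_pos.2 (cone' h a b' z (by rw [dt_swap]; linarith) (by rw [dt_swap]; linarith))
      · have e1 : s.2 = (dt (X.vec s.1) s.2 / dt (X.vec s.1) u) • u -
            (dt u s.2 / dt (X.vec s.1) u) • X.vec s.1 := by
          have := i.den.1.ne'
          apply Complex.ext <;> simp only [Complex.sub_re, Complex.sub_im, Complex.smul_re,
            Complex.smul_im, smul_eq_mul] <;> field_simp <;> unfold dt <;> ring
        have e2 : ‖s.2‖ ≤ D * ‖w‖ / dt u w * ‖u‖ + 1 * D := by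
          rw [e1]
          refine (norm_sub_le _ _).trans ?_
          rw [norm_smul, norm_smul, Real.norm_of_nonneg (div_nonneg f i.den.1.le),
            Real.norm_of_nonneg i.den.2.1.le]
          exact add_le_add (mul_le_mul_of_nonneg_right (al s i j) (norm_nonneg _))
            (mul_le_mul i.den.2.2.le (hD _) (norm_nonneg _) zero_le_one)
        linarith [norm_add₃_le (a := s.2) (b := X.vec s.1) (c := X.vec (X.nx s.1)), hD s.1,
          hD (X.nx s.1), show ‖X.apex s‖ = ‖s.2 + X.vec s.1 + X.vec (X.nx s.1)‖ from rfl]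
  obtain ⟨n, hn⟩ := exists_nat_gt (K * (D * ‖w‖ / dt u w) + Fintype.card E -
    X.pot K u (X.op (X.nx e), X.apex (e, 0)))
  refine key n _ (inv_start u1 u2) (inv_start w1 w2) ?_ (fun _ _ _ _ => .refl) (by linarith)
  have := X.pos e
  simp only [dt, apex, X.glue, Complex.add_re, Complex.add_im, Complex.neg_re, Complex.neg_im,
    zero_add] at this ⊢
  linarith

variable (X)

theorem cnt_lower [Fintype E] [Nonempty E] : ∃ c : ℝ, 0 < c ∧ ∀ᶠ R in atTop, c * R ≤ X.cnt R := by
  obtain ⟨e⟩ := ‹Nonempty E›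
  obtain ⟨D, hD⟩ := (finite_range fun f => ‖X.vec f‖).bddAbove
  replace hD : ∀ f, ‖X.vec f‖ ≤ D := fun f => hD ⟨f, rfl⟩
  have hA := X.pos e
  have D0 : 0 < D := (norm_pos_iff.2 (X.ne_zero (c := (e, X.vec e)) (Or.inl rfl))).trans_le (hD e)
  set A := dt (X.vec e) (X.vec (X.nx e)) with hA'
  set L := 8 * D ^ 3 / A + 3 * D with hL
  have L0 : 0 < L := by positivity
  let U : ℝ → ℂ := fun t => X.vec e + t • X.vec (X.nx e)
  have d1 : ∀ s t, dt (U s) (U t) = (t - s) * A := fun s t => by simp [U, hA', dt]; ring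
  have d2 : ∀ t, 0 < t → 0 < dt (X.vec e) (U t) := fun t ht => by
    simpa [U] using (mul_pos (sub_pos.2 ht) hA).trans_eq (d1 0 t).symm
  have d3 : ∀ t, t < 1 → 0 < dt (U t) (X.apex (e, 0)) := fun t ht => by
    simpa [U, apex] using (mul_pos (sub_pos.2 ht) hA).trans_eq (d1 t 1).symm
  have d4 : ∀ t, 0 ≤ t → t ≤ 1 → ‖U t‖ ≤ 2 * D := fun t h0 h1 => by
    refine (norm_add_le _ _).trans ?_
    rw [norm_smul, Real.norm_of_nonneg h0]
    linarith [hD e, mul_le_mul h1 (hD (X.nx e)) (norm_nonneg _) zero_le_one]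
  have key : ∀ m : ℕ, ∀ R, L * (m + 1) ≤ R → (m : ℝ) ≤ X.cnt R := by
    intro m R hR
    have m0 : (0 : ℝ) < 2 * m + 1 := by positivity
    have : ∀ j : Fin m, ∃ v, (e, v) ∈ X.ball R ∧ 0 ≤ dt (U ((2 * j + 1) / (2 * m + 1))) v ∧
        0 ≤ dt v (U ((2 * j + 2) / (2 * m + 1))) := by
      intro j
      have hj : ((j : ℕ) : ℝ) + 1 ≤ m := by exact_mod_cast j.2
      have t1 : (2 * (j : ℝ) + 1) / (2 * m + 1) < 1 := (div_lt_one m0).2 (by linarith)
      have t2 : (2 * (j : ℝ) + 2) / (2 * m + 1) < 1 := (div_lt_one m0).2 (by linarith)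
      have e1 : dt (U ((2 * j + 1) / (2 * m + 1))) (U ((2 * j + 2) / (2 * m + 1))) =
          A / (2 * m + 1) := by rw [d1]; ring
      obtain ⟨v, h1, h2, h3, h4⟩ := sep hD e (e1 ▸ div_pos hA m0) (d2 _ (by positivity)) (d3 _ t1)
        (d2 _ (by positivity)) (d3 _ t2)
      refine ⟨v, (Finite.mem_toFinset _).2 ⟨h1, h4.trans (le_trans ?_ hR)⟩, h2, h3⟩
      rw [e1]
      calc _ ≤ D * (2 * D) / (A / (2 * m + 1)) * (2 * D) + 3 * D := by
            gcongr
            exacts [d4 _ (by positivity) t2.le, d4 _ (by positivity) t1.le]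
        _ = 4 * D ^ 3 / A * (2 * m + 1) + 3 * D := by field_simp; ring
        _ ≤ 4 * D ^ 3 / A * (2 * m + 2) + 3 * D * (m + 1) := by
            refine add_le_add (by gcongr; norm_num) (le_mul_of_one_le_right (by positivity) ?_)
            linarith
        _ = _ := by rw [hL]; ring
    choose v h1 h2 h3 using this
    have lt : ∀ j k : Fin m, j < k → v j ≠ v k := by
      intro j k h e'
      have hj : ((j : ℕ) : ℝ) + 1 ≤ (k : ℕ) := by exact_mod_cast h
      have p : ∀ {a b : ℝ}, a < b → 0 < dt (U (a / (2 * m + 1))) (U (b / (2 * m + 1))) :=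
        fun h => d1 _ _ ▸ mul_pos (sub_pos.2 (div_lt_div_of_pos_right h m0)) hA
      have := cone (T := U ((2 * k + 1) / (2 * m + 1))) (p (by linarith)) (h2 j) (h3 j)
        (X.ne_zero ((Finite.mem_toFinset _).1 (h1 j)).1) (p (by linarith)) (p (by linarith))
      rw [e', dt_swap] at this
      linarith [h2 k]
    have := Finset.card_le_card_of_injOn (s := Finset.univ) (t := X.ball R) (fun j => (e, v j))
      (fun j _ => h1 j) fun j _ k _ h => by
        have h' : v j = v k := congrArg Prod.snd h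
        rcases lt_trichotomy j k with c | c | c
        exacts [absurd h' (lt _ _ c), c, absurd h'.symm (lt _ _ c)]
    simpa [cnt] using this
  refine ⟨(2 * L)⁻¹, by positivity, (eventually_ge_atTop (4 * L)).mono fun R hR => ?_⟩
  have r : 4 ≤ R / L := (le_div_iff₀ L0).2 hR
  refine le_trans ?_ (key ⌊R / L - 1⌋₊ R ?_)
  · have := Nat.lt_floor_add_one (R / L - 1)
    rw [show (2 * L)⁻¹ * R = R / L / 2 by field_simp]
    linarith
  · rw [← le_div_iff₀' L0]
    linarith [Nat.floor_le (show 0 ≤ R / L - 1 by linarith)]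

end Surf

end Pool.Agent.MP_16ecd2_an.H44
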