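import Mathlib

/-!
Translation surfaces as triangles glued by translations, and their saddle connections.
-/

namespace Pool.Agent.MP_16ecd2_an.H44

open Set Filter Topology Real

/-- The determinant of two plane vectors. -/
def dt (a b : ℂ) : ℝ := a.re * b.im - a.im * b.re

/-- A translation surface cut into triangles whose vertices are the singular points. `E` is the
set of sides of the triangles, each oriented counterclockwise in its triangle; `nx e` is the next
side of the same triangle, `op e` is the side glued to `e`, and `vec e` is the vector of `e`. -/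
structure Surf (E : Type) where
  nx : E → E
  op : E → E
  vec : E → ℂ
  nx3 : ∀ e, nx (nx (nx e)) = e
  op2 : ∀ e, op (op e) = e
  closed : ∀ e, vec e + vec (nx e) + vec (nx (nx e)) = 0
  pos : ∀ e, 0 < dt (vec e) (vec (nx e))
  glue : ∀ e, vec (op e) = -vec e

namespace Surf

variable {E : Type} (X : Surf E)

/-- A developed side `(e, p)` has its initial point at `p`; this is the position of the third
vertex of its triangle. -/
def apex (s : E × ℂ) : ℂ := s.2 + X.vec s.1 + X.vec (X.nx s.1)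

/-- The ray from `0` in the direction `v` enters a developed triangle through the side `s`, misses
the third vertex, and enters the next triangle through the side `t`. -/
def Step (v : ℂ) (s t : E × ℂ) : Prop :=
  (0 < dt v (X.apex s) ∧ t = (X.op (X.nx s.1), X.apex s)) ∨
    (dt v (X.apex s) < 0 ∧ t = (X.op (X.nx (X.nx s.1)), s.2))

/-- Oriented saddle connections. The pair `(e, v)` is the segment with holonomy `v` that starts at
the initial point of `e` in the corner of the triangle of `e`: either `e` itself, or a segment that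
leaves strictly inside the corner and meets its first vertex at the developed position `v`. -/
def SC : Set (E × ℂ) :=
  {c | c.2 = X.vec c.1 ∨ (0 < dt (X.vec c.1) c.2 ∧ 0 < dt c.2 (X.apex (c.1, 0)) ∧
    ∃ s, Relation.ReflTransGen (X.Step c.2) (X.op (X.nx c.1), X.apex (c.1, 0)) s ∧
      X.apex s = c.2)}

/-- The ray crosses the open side. -/
def Inv (v : ℂ) (s : E × ℂ) : Prop := 0 < dt v s.2 ∧ dt v (s.2 + X.vec s.1) < 0

theorem vec_nn (e : E) : X.vec (X.nx (X.nx e)) = -(X.vec e + X.vec (X.nx e)) := by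
  linear_combination X.closed e

variable {X}

theorem Step.inv {v : ℂ} {s t : E × ℂ} (h : X.Step v s t) (hs : X.Inv v s) : X.Inv v t := by
  rcases h with ⟨h, rfl⟩ | ⟨h, rfl⟩
  · refine ⟨h, ?_⟩
    simpa [apex, X.glue] using hs.2
  · refine ⟨hs.1, ?_⟩
    simpa only [apex, X.glue, X.vec_nn, neg_neg, add_assoc] using h

theorem inv_start {e : E} {v : ℂ} (h1 : 0 < dt (X.vec e) v) (h2 : 0 < dt v (X.apex (e, 0))) :
    X.Inv v (X.op (X.nx e), X.apex (e, 0)) := by
  refine ⟨h2, ?_⟩
  simp only [apex, X.glue, zero_add, add_neg_cancel_right]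
  unfold dt at *
  linarith

variable (X)

/-- States after `n` steps, whatever the direction. -/
def St : ℕ → Set (E × ℂ)
  | 0 => range fun e => (X.op (X.nx e), X.apex (e, 0))
  | n + 1 => (fun s => (X.op (X.nx s.1), X.apex s)) '' St n ∪
      (fun s => (X.op (X.nx (X.nx s.1)), s.2)) '' St n

theorem st_finite [Finite E] : ∀ n, (X.St n).Finite
  | 0 => finite_range _
  | n + 1 => ((st_finite n).image _).union ((st_finite n).image _)

/-- The cotangent of the angle from a side to the ray. -/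
noncomputable def ct (v : ℂ) (e : E) : ℝ :=
  ((X.vec e).re * v.re + (X.vec e).im * v.im) / dt (X.vec e) v

/-- The rank of that cotangent. -/
noncomputable def rk [Fintype E] (v : ℂ) (e : E) : ℝ :=
  ((Finset.univ.filter fun f => X.ct v f < X.ct v e).card : ℝ)

theorem rk_bd [Fintype E] (v : ℂ) (e : E) : 0 ≤ X.rk v e ∧ X.rk v e ≤ Fintype.card E :=
  ⟨Nat.cast_nonneg _, Nat.cast_le.2 (Finset.card_le_univ _)⟩

theorem rk_lt [Fintype E] {v : ℂ} {e f : E} (h : X.ct v e < X.ct v f) :
    X.rk v e + 1 ≤ X.rk v f := by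
  unfold rk
  norm_cast
  refine Finset.card_lt_card ⟨fun x hx => ?_, fun hh => ?_⟩
  · simp only [Finset.mem_filter, Finset.mem_univ, true_and] at hx ⊢
    exact hx.trans h
  · have := hh (Finset.mem_filter.2 ⟨Finset.mem_univ e, h⟩)
    simp at this

/-- A potential that grows along the ray. -/
noncomputable def pot [Fintype E] (K : ℝ) (v : ℂ) (s : E × ℂ) : ℝ :=
  K * (dt (X.vec s.1) s.2 / dt (X.vec s.1) v) +
    X.rk v s.1 * (1 - 2 * (dt v s.2 / dt (X.vec s.1) v))

variable {X}

theorem Inv.den {v : ℂ} {s : E × ℂ} (h : X.Inv v s) :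
    0 < dt (X.vec s.1) v ∧ 0 < dt v s.2 / dt (X.vec s.1) v ∧
      dt v s.2 / dt (X.vec s.1) v < 1 := by
  obtain ⟨h1, h2⟩ := h
  have h3 : dt v s.2 < dt (X.vec s.1) v := by
    simp only [dt, Complex.add_re, Complex.add_im] at *
    linarith
  exact ⟨h1.trans h3, div_pos h1 (h1.trans h3), (div_lt_one (h1.trans h3)).2 h3⟩

theorem pot_step [Fintype E] {K : ℝ} {v : ℂ}
    (hK : ∀ e f, 2 * Fintype.card E * dt (X.vec f) v ≤ K * dt (X.vec e) (X.vec (X.nx e)))
    {s t : E × ℂ} (h : X.Step v s t) (hs : X.Inv v s) : X.pot K v s + 1 ≤ X.pot K v t := by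
  obtain ⟨d1, l1, l2⟩ := hs.den
  obtain ⟨d2, l3, l4⟩ := (h.inv hs).den
  have hA := X.pos s.1
  have hv : 0 < v.re ^ 2 + v.im ^ 2 := by
    by_contra hc
    have a1 : v.re = 0 := by nlinarith
    have a2 : v.im = 0 := by nlinarith
    simp [dt, a1, a2] at d1
  have b1 := X.rk_bd v s.1
  have b2 := X.rk_bd v t.1
  unfold pot
  rcases h with ⟨-, ht⟩ | ⟨-, ht⟩
  · have e1 : X.vec t.1 = -X.vec (X.nx s.1) := by rw [ht, X.glue]
    have e2 : t.2 = s.2 + X.vec s.1 + X.vec (X.nx s.1) := by rw [ht]; rfl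
    have hr : X.rk v t.1 + 1 ≤ X.rk v s.1 := by
      refine X.rk_lt ?_
      rw [ct, ct, div_lt_div_iff₀ d2 d1, e1]
      simp only [dt, Complex.neg_re, Complex.neg_im] at hA ⊢
      nlinarith [mul_pos hA hv]
    have e3 : dt (X.vec t.1) t.2 / dt (X.vec t.1) v = dt (X.vec s.1) s.2 / dt (X.vec s.1) v +
        (1 - dt v s.2 / dt (X.vec s.1) v) *
          (dt (X.vec s.1) (X.vec (X.nx s.1)) / dt (X.vec t.1) v) := by
      field_simp
      rw [e1, e2]
      simp only [dt, Complex.neg_re, Complex.neg_im, Complex.add_re, Complex.add_im]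
      ring
    have e4 : 2 * Fintype.card E ≤
        K * (dt (X.vec s.1) (X.vec (X.nx s.1)) / dt (X.vec t.1) v) := by
      rw [← mul_div_assoc, le_div_iff₀ d2]
      exact hK _ _
    rw [e3]
    nlinarith [mul_le_mul_of_nonneg_left e4 (sub_pos.2 l2).le, mul_nonneg b2.1 (sub_pos.2 l4).le,
      mul_le_mul_of_nonneg_left b1.2 (sub_pos.2 l2).le]
  · have e1 : X.vec t.1 = X.vec s.1 + X.vec (X.nx s.1) := by rw [ht, X.glue, X.vec_nn, neg_neg]
    have e2 : t.2 = s.2 := by rw [ht]
    have hr : X.rk v s.1 + 1 ≤ X.rk v t.1 := by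
      refine X.rk_lt ?_
      rw [ct, ct, div_lt_div_iff₀ d1 d2, e1]
      simp only [dt, Complex.add_re, Complex.add_im] at hA ⊢
      nlinarith [mul_pos hA hv]
    have e3 : dt (X.vec t.1) t.2 / dt (X.vec t.1) v = dt (X.vec s.1) s.2 / dt (X.vec s.1) v +
        (dt v t.2 / dt (X.vec t.1) v) *
          (dt (X.vec s.1) (X.vec (X.nx s.1)) / dt (X.vec s.1) v) := by
      field_simp
      rw [e1, e2]
      simp only [dt, Complex.add_re, Complex.add_im]
      ring
    have e4 : 2 * Fintype.card E ≤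
        K * (dt (X.vec s.1) (X.vec (X.nx s.1)) / dt (X.vec s.1) v) := by
      rw [← mul_div_assoc, le_div_iff₀ d1]
      exact hK _ _
    rw [e3]
    nlinarith [mul_le_mul_of_nonneg_left e4 l3.le, mul_nonneg b1.1 l1.le,
      mul_le_mul_of_nonneg_left b2.2 l3.le]

theorem dt_le (a b : ℂ) : dt a b ≤ ‖a‖ * ‖b‖ := by
  have h : dt a b = ((starRingEnd ℂ) a * b).im := by simp [dt]; ring
  rw [h]
  refine (le_abs_self _).trans ((Complex.abs_im_le_norm _).trans (le_of_eq ?_))
  rw [norm_mul, Complex.norm_conj]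

variable (X)

/-- There are finitely many saddle connections of bounded length. -/
theorem finite_sc [Fintype E] (R : ℝ) : {c ∈ X.SC | ‖c.2‖ ≤ R}.Finite := by
  obtain ⟨K, hK0, hK⟩ : ∃ K : ℝ, 0 ≤ K ∧ ∀ e f, 2 * Fintype.card E * (‖X.vec f‖ * R) ≤
      K * dt (X.vec e) (X.vec (X.nx e)) := by
    obtain ⟨K, hK⟩ := (finite_range fun p : E × E =>
      2 * Fintype.card E * (‖X.vec p.2‖ * R) / dt (X.vec p.1) (X.vec (X.nx p.1))).bddAbove
    refine ⟨max K 0, le_max_right _ _, fun e f => ?_⟩
    rw [← div_le_iff₀ (X.pos e)]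
    exact (hK ⟨(e, f), rfl⟩).trans (le_max_left _ _)
  obtain ⟨n0, hn0⟩ := exists_nat_ge (K + 2 * Fintype.card E)
  refine ((finite_range fun e => (e, X.vec e)).union ((finite_univ (α := E)).prod
    (((finite_Iic n0).biUnion fun n _ => X.st_finite n).image X.apex))).subset ?_
  rintro ⟨e, v⟩ ⟨h | ⟨h1, h2, s, h3, h4⟩, hR⟩
  · exact Or.inl ⟨e, Prod.ext rfl h.symm⟩
  · refine Or.inr ⟨mem_univ _, s, ?_, h4⟩
    dsimp only at h1 h2 h3 h4 hR
    have hK' : ∀ e f, 2 * Fintype.card E * dt (X.vec f) v ≤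
        K * dt (X.vec e) (X.vec (X.nx e)) := fun e f => le_trans (by
      gcongr
      exact (dt_le _ _).trans (by gcongr)) (hK e f)
    have key : X.Inv v s ∧ ∃ n : ℕ, s ∈ X.St n ∧
        X.pot K v (X.op (X.nx e), X.apex (e, 0)) + n ≤ X.pot K v s := by
      clear h4
      induction h3 with
      | refl => exact ⟨inv_start h1 h2, 0, ⟨e, rfl⟩, by simp⟩
      | tail _ hst ih =>
        obtain ⟨i1, n, i2, i3⟩ := ih
        refine ⟨hst.inv i1, n + 1, ?_, ?_⟩
        · rcases hst with ⟨-, rfl⟩ | ⟨-, rfl⟩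
          · exact Or.inl ⟨_, i2, rfl⟩
          · exact Or.inr ⟨_, i2, rfl⟩
        · have := pot_step hK' hst i1
          push_cast
          linarith
    obtain ⟨i1, n, i2, i3⟩ := key
    refine mem_biUnion (show n ≤ n0 from ?_) i2
    obtain ⟨d1, l1, l2⟩ := i1.den
    obtain ⟨d2, l3, l4⟩ := (inv_start h1 h2).den
    have b1 := X.rk_bd v s.1
    have b2 := X.rk_bd v (X.op (X.nx e))
    have a1 : dt (X.vec s.1) s.2 / dt (X.vec s.1) v ≤ 1 := by
      have := X.pos s.1
      rw [div_le_one d1, ← h4]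
      simp only [dt, apex, Complex.add_re, Complex.add_im] at this ⊢
      linarith
    have a2 : 0 ≤ dt (X.vec (X.op (X.nx e))) (X.apex (e, 0)) / dt (X.vec (X.op (X.nx e))) v := by
      refine div_nonneg ?_ d2.le
      have := X.pos e
      simp only [dt, apex, X.glue, Complex.add_re, Complex.add_im, Complex.neg_re, Complex.neg_im,
        zero_add] at this ⊢
      linarith
    unfold pot at i3
    dsimp only at i3 l3 l4
    have : (n : ℝ) ≤ n0 := by
      nlinarith [mul_le_mul_of_nonneg_left a1 hK0, mul_nonneg hK0 a2, mul_nonneg b1.1 l1.le,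
        mul_nonneg b2.1 (sub_pos.2 l4).le]
    exact_mod_cast this

end Surf

end Pool.Agent.MP_16ecd2_an.H44
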